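import Mathlib
import Pool.Agent.Results.MP_8aa8ea_co.NotSelfPolar

set_option autoImplicit false

namespace Pool.Agent.Y845.CP

open Pool.Agent.Results.MP_8aa8ea_co.NotSelfPolar

/-- labels of a cevian triangle: `inl a` (vertices / sides), `inr a` (feet / cevians) -/
abbrev K := Fin 3 ⊕ Fin 3

/-- the incidences of a cevian triangle: vertex `b` lies on side `a` for `a ≠ b` (side `a` is the
one opposite to vertex `a`), foot `a` lies on side `a` and on cevian `a`, and vertex `a` lies on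
cevian `a`. -/
def kinc : K → K → Prop
  | Sum.inl a, Sum.inl b => a ≠ b
  | Sum.inl a, Sum.inr b => a = b
  | Sum.inr a, Sum.inl b => a = b
  | Sum.inr a, Sum.inr b => a = b

instance : DecidableRel kinc := by
  intro x y
  rcases x with a | a <;> rcases y with b | b <;> simp only [kinc] <;> infer_instance

/-- The labelled cevian triangles of an incidence relation: six distinct points and six distinct
lines with the incidences `kinc`. -/
def Cev {α β : Type*} (inc : α → β → Prop) : Set ((K → α) × (K → β)) :=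
  {h | Function.Injective h.1 ∧ Function.Injective h.2 ∧ ∀ a b, kinc a b → inc (h.1 a) (h.2 b)}

/-- homogeneous coordinates of a point of the Euclidean plane -/
def hom (x : Plane) : Fin 3 → ℝ := ![x 0, x 1, 1]

/-- The realization is mapped onto itself by a correlation of the real projective plane. -/
def SelfCorrelated {n q : ℕ} {C : Config n q} (R : Realization C) : Prop :=
  ∃ M : Matrix (Fin 3) (Fin 3) ℝ, M.det ≠ 0 ∧
    (∀ i, ∃ j, ∀ x : Plane, x ∈ R.ln j ↔ hom (R.pt i) ⬝ᵥ M.mulVec (hom x) = 0) ∧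
    (∀ i, ∃ j, ∀ x : Plane, x ∈ R.ln j ↔ hom x ⬝ᵥ M.mulVec (hom (R.pt i)) = 0)

/-- relabelling 1 <-> 2 -/
def tK : K → K := Sum.map (Equiv.swap (1 : Fin 3) 2) (Equiv.swap (1 : Fin 3) 2)

theorem tK_tK : ∀ a, tK (tK a) = a := by decide
theorem tK_kinc : ∀ a b, kinc (tK a) (tK b) ↔ kinc a b := by decide

theorem tK_inj : Function.Injective tK := fun a b h => by
  have := congrArg tK h
  rwa [tK_tK, tK_tK] at this

theorem kinc_symm : ∀ a b, kinc a b ↔ kinc b a := by decide

/-- abstract parity lemma: free involution `τ`, permutation `Φ`, sign `s` invariant under `τ` and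
changed by `Φ`. -/
theorem four_dvd {X : Type*} [Fintype X] (τ : X → X) (hτ : ∀ h, τ (τ h) = h) (hf : ∀ h, τ h ≠ h)
    (Φ : X → X) (hΦ : Function.Injective Φ) (s : X → Prop) (h1 : ∀ h, s (τ h) ↔ s h)
    (h2 : ∀ h, s (Φ h) ↔ ¬ s h) : 4 ∣ Fintype.card X := by
  classical
  have e1 : Even (Fintype.card {h // s h}) := by
    let σ : Function.End {h // s h} := fun h => ⟨τ h.1, (h1 h.1).mpr h.2⟩
    have hσ : σ ^ 2 ^ 1 = 1 := by
      funext h
      apply Subtype.ext
      change τ (τ h.1) = h.1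
      exact hτ _
    have := Equiv.Perm.card_fixedPoints_modEq (p := 2) (n := 1) hσ
    have h0 : Fintype.card (Function.fixedPoints σ) = 0 := by
      rw [Fintype.card_eq_zero_iff]
      constructor
      rintro ⟨h, hh⟩
      exact hf h.1 (congrArg Subtype.val hh)
    rw [h0] at this
    exact Nat.even_iff.mpr this
  have hb : Function.Bijective Φ := Finite.injective_iff_bijective.mp hΦ
  have e2 : Fintype.card {h // s h} = Fintype.card {h // ¬ s h} := by
    apply le_antisymm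
    · exact Fintype.card_le_of_injective
        (fun h : {h // s h} => (⟨Φ h.1, by rw [h2]; exact not_not.mpr h.2⟩ : {h // ¬ s h}))
        (fun a b hab => Subtype.ext (hΦ (congrArg Subtype.val hab)))
    · exact Fintype.card_le_of_injective
        (fun h : {h // ¬ s h} => (⟨Φ h.1, (h2 h.1).mpr h.2⟩ : {h // s h}))
        (fun a b hab => Subtype.ext (hΦ (congrArg Subtype.val hab)))
  have e3 : Fintype.card {h // ¬ s h} = Fintype.card X - Fintype.card {h // s h} :=
    Fintype.card_subtype_compl _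
  have e4 : Fintype.card {h // s h} ≤ Fintype.card X := Fintype.card_subtype_le _
  obtain ⟨k, hk⟩ := e1
  exact ⟨k, by omega⟩

/-- bilinear form -/
noncomputable def bil (M : Matrix (Fin 3) (Fin 3) ℝ) (x y : Plane) : ℝ := hom x ⬝ᵥ M.mulVec (hom y)

@[simp] theorem hom_zero (x : Plane) : hom x 0 = x 0 := rfl
@[simp] theorem hom_one (x : Plane) : hom x 1 = x 1 := rfl
@[simp] theorem hom_two (x : Plane) : hom x 2 = 1 := rfl

theorem hom_lineMap (a b : Plane) (t : ℝ) :
    hom (AffineMap.lineMap a b t) = (1 - t) • hom a + t • hom b := by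
  funext k
  fin_cases k <;> simp [hom, AffineMap.lineMap_apply] <;> ring

theorem bil_lineMap (M : Matrix (Fin 3) (Fin 3) ℝ) (a b a' b' : Plane) (t t' : ℝ) :
    bil M (AffineMap.lineMap a b t) (AffineMap.lineMap a' b' t') =
      (1 - t) * (1 - t') * bil M a a' + (1 - t) * t' * bil M a b' + t * (1 - t') * bil M b a'
        + t * t' * bil M b b' := by
  simp only [bil, hom_lineMap, Matrix.mulVec_add, Matrix.mulVec_smul, dotProduct_add,
    add_dotProduct, smul_dotProduct, dotProduct_smul, smul_eq_mul]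
  ring

/-- One foot. -/
theorem foot (M : Matrix (Fin 3) (Fin 3) ℝ) {A B F A' B' F' : Plane}
    (hF : F ∈ line[ℝ, A, B]) (hF' : F' ∈ line[ℝ, A', B']) (hFA : F ≠ A) (hFB : F ≠ B)
    (hFA' : F' ≠ A') (hFB' : F' ≠ B')
    (h1 : bil M A B' = 0) (h2 : bil M B A' = 0) (h3 : bil M F F' = 0)
    (hd : bil M A A' ≠ 0) :
    inner ℝ (F - A) (F - B) * inner ℝ (F' - A') (F' - B') * (bil M A A' * bil M B B') < 0 := by
  rw [mem_affineSpan_pair_iff_exists_lineMap_eq] at hF hF'
  obtain ⟨t, rfl⟩ := hF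
  obtain ⟨t', rfl⟩ := hF'
  rw [bil_lineMap, h1, h2] at h3
  have ht0 : t ≠ 0 := by
    rintro rfl
    exact hFA (AffineMap.lineMap_apply_zero A B)
  have ht1 : t ≠ 1 := by
    rintro rfl
    exact hFB (AffineMap.lineMap_apply_one A B)
  have ht0' : t' ≠ 0 := by
    rintro rfl
    exact hFA' (AffineMap.lineMap_apply_zero A' B')
  have ht1' : t' ≠ 1 := by
    rintro rfl
    exact hFB' (AffineMap.lineMap_apply_one A' B')
  have key : ∀ (A B : Plane) (t : ℝ), t ≠ 0 → AffineMap.lineMap A B t ≠ A →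
      inner ℝ (AffineMap.lineMap A B t - A) (AffineMap.lineMap A B t - B)
        = - (t * (1 - t)) * inner ℝ (B - A) (B - A) ∧ 0 < inner ℝ (B - A) (B - A) := by
    intro A B t ht hne
    have e1 : AffineMap.lineMap A B t - A = t • (B - A) := by
      rw [AffineMap.lineMap_apply]; simp
    have e2 : AffineMap.lineMap A B t - B = (-(1 - t)) • (B - A) := by
      rw [AffineMap.lineMap_apply]; simp only [vsub_eq_sub, vadd_eq_add]; module
    refine ⟨?_, ?_⟩
    · rw [e1, e2, inner_smul_left, inner_smul_right]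
      simp only [conj_trivial]
      ring
    · rw [real_inner_self_eq_norm_sq]
      have : B - A ≠ 0 := by
        intro h0
        rw [h0, smul_zero, sub_eq_zero] at e1
        exact hne e1
      have := norm_pos_iff.mpr this
      positivity
  obtain ⟨i1, p1⟩ := key A B t ht0 hFA
  obtain ⟨i2, p2⟩ := key A' B' t' ht0' hFA'
  rw [i1, i2]
  set d := bil M A A'
  set d' := bil M B B'
  have h4 : (1 - t) * (1 - t') * d = - (t * t' * d') := by linarith
  have h1t : (1 - t) ≠ 0 := sub_ne_zero.mpr (Ne.symm ht1)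
  have h1t' : (1 - t') ≠ 0 := sub_ne_zero.mpr (Ne.symm ht1')
  have h5 : -(t * (1 - t)) * inner ℝ (B - A) (B - A) * (-(t' * (1 - t')) * inner ℝ (B' - A') (B' - A'))
      * (d * d') = ((1 - t) * (1 - t') * d) * (t * t' * d') *
        (inner ℝ (B - A) (B - A) * inner ℝ (B' - A') (B' - A')) := by ring
  rw [h5, ← neg_eq_iff_eq_neg.mpr h4]
  have h6 : 0 < ((1 - t) * (1 - t') * d) ^ 2 := by
    have : (1 - t) * (1 - t') * d ≠ 0 := mul_ne_zero (mul_ne_zero h1t h1t') hd
    positivity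
  have h7 := mul_pos h6 (mul_pos p1 p2)
  nlinarith [h7]

/-- product over the three sides of the signed data of the feet -/
noncomputable def wgt (P : K → Plane) : ℝ :=
  inner ℝ (P (Sum.inr 0) - P (Sum.inl 1)) (P (Sum.inr 0) - P (Sum.inl 2)) *
  inner ℝ (P (Sum.inr 1) - P (Sum.inl 2)) (P (Sum.inr 1) - P (Sum.inl 0)) *
  inner ℝ (P (Sum.inr 2) - P (Sum.inl 0)) (P (Sum.inr 2) - P (Sum.inl 1))

theorem wgt_tK (P : K → Plane) : wgt (P ∘ tK) = wgt P := by
  have e0 : (Equiv.swap (1 : Fin 3) 2) 0 = 0 := by decide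
  have e1 : (Equiv.swap (1 : Fin 3) 2) 1 = 2 := by decide
  have e2 : (Equiv.swap (1 : Fin 3) 2) 2 = 1 := by decide
  simp only [wgt, tK, Function.comp, Sum.map_inl, Sum.map_inr, e0, e1, e2]
  rw [real_inner_comm (P (Sum.inr 0) - P (Sum.inl 1)), real_inner_comm (P (Sum.inr 2) - P (Sum.inl 0)),
    real_inner_comm (P (Sum.inr 1) - P (Sum.inl 2))]
  ring

section
variable {n q : ℕ} {C : Config n q} (R : Realization C)

theorem on_line {h : (K → Fin n) × (K → Fin n)} (hh : h ∈ Cev C.inc) (k a b : Fin 3)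
    (hka : a ≠ k) (hkb : b ≠ k) (hab : a ≠ b) :
    R.pt (h.1 (Sum.inr k)) ∈ line[ℝ, R.pt (h.1 (Sum.inl a)), R.pt (h.1 (Sum.inl b))] := by
  obtain ⟨i1, i2, i3⟩ := hh
  have hc := collinear_of_mem (R.ln_line (h.2 (Sum.inl k))).2
    ((R.inc_iff _ _).mpr (i3 (Sum.inl a) (Sum.inl k) hka))
    ((R.inc_iff _ _).mpr (i3 (Sum.inl b) (Sum.inl k) hkb))
    ((R.inc_iff _ _).mpr (i3 (Sum.inr k) (Sum.inl k) rfl))
  refine hc.mem_affineSpan_of_mem_of_ne (by simp) (by simp) (by simp) ?_
  exact R.pt_inj.ne (i1.ne (by simpa using hab))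

/-- The flipping lemma. -/
theorem flip (M : Matrix (Fin 3) (Fin 3) ℝ) {h h' : (K → Fin n) × (K → Fin n)}
    (hh : h ∈ Cev C.inc) (hh' : h' ∈ Cev C.inc)
    (hB : ∀ a b, bil M (R.pt (h.1 a)) (R.pt (h'.1 b)) = 0 ↔ C.inc (h'.1 b) (h'.2 a)) :
    wgt (fun a => R.pt (h.1 a)) * wgt (fun a => R.pt (h'.1 a)) < 0 := by
  obtain ⟨i1, i2, i3⟩ := id hh
  obtain ⟨j1, j2, j3⟩ := id hh'
  have hz : ∀ a b, kinc b a → bil M (R.pt (h.1 a)) (R.pt (h'.1 b)) = 0 := fun a b hab =>
    (hB a b).mpr (j3 b a hab)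
  have hd : ∀ a : Fin 3, bil M (R.pt (h.1 (Sum.inl a))) (R.pt (h'.1 (Sum.inl a))) ≠ 0 := by
    intro a h0
    have h1 := (hB _ _).mp h0
    -- another vertex `b` and the side `c`
    obtain ⟨b, c, hab, hac, hbc⟩ : ∃ b c : Fin 3, a ≠ b ∧ a ≠ c ∧ b ≠ c := by
      clear h0 h1
      revert a; decide
    have h2 := j3 (Sum.inl b) (Sum.inl a) (Ne.symm hab)
    have h3 := j3 (Sum.inl a) (Sum.inl c) hac
    have h4 := j3 (Sum.inl b) (Sum.inl c) hbc
    have h5 := C.unique_line _ _ _ _ (j1.ne (show (Sum.inl a : K) ≠ Sum.inl b by simpa using hab))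
      h1 h2 h3 h4
    exact hac (Sum.inl_injective (j2 h5))
  have hne : ∀ a k : Fin 3, R.pt (h.1 (Sum.inr k)) ≠ R.pt (h.1 (Sum.inl a)) := fun a k =>
    R.pt_inj.ne (i1.ne (by simp))
  have hne' : ∀ a k : Fin 3, R.pt (h'.1 (Sum.inr k)) ≠ R.pt (h'.1 (Sum.inl a)) := fun a k =>
    R.pt_inj.ne (j1.ne (by simp))
  have F : ∀ k a b : Fin 3, a ≠ k → b ≠ k → a ≠ b → _ := fun k a b hka hkb hab =>
    foot M (on_line R hh k a b hka hkb hab) (on_line R hh' k a b hka hkb hab) (hne a k) (hne b k)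
      (hne' a k) (hne' b k) (hz _ _ (show kinc (Sum.inl b) (Sum.inl a) from hab.symm))
      (hz _ _ (show kinc (Sum.inl a) (Sum.inl b) from hab))
      (hz _ _ (show kinc (Sum.inr k) (Sum.inr k) from rfl)) (hd a)
  have f0 := F 0 1 2 (by decide) (by decide) (by decide)
  have f1 := F 1 2 0 (by decide) (by decide) (by decide)
  have f2 := F 2 0 1 (by decide) (by decide) (by decide)
  simp only [wgt]
  set u0 := inner ℝ (R.pt (h.1 (Sum.inr 0)) - R.pt (h.1 (Sum.inl 1))) (R.pt (h.1 (Sum.inr 0)) - R.pt (h.1 (Sum.inl 2)))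
  set u1 := inner ℝ (R.pt (h.1 (Sum.inr 1)) - R.pt (h.1 (Sum.inl 2))) (R.pt (h.1 (Sum.inr 1)) - R.pt (h.1 (Sum.inl 0)))
  set u2 := inner ℝ (R.pt (h.1 (Sum.inr 2)) - R.pt (h.1 (Sum.inl 0))) (R.pt (h.1 (Sum.inr 2)) - R.pt (h.1 (Sum.inl 1)))
  set v0 := inner ℝ (R.pt (h'.1 (Sum.inr 0)) - R.pt (h'.1 (Sum.inl 1))) (R.pt (h'.1 (Sum.inr 0)) - R.pt (h'.1 (Sum.inl 2)))
  set v1 := inner ℝ (R.pt (h'.1 (Sum.inr 1)) - R.pt (h'.1 (Sum.inl 2))) (R.pt (h'.1 (Sum.inr 1)) - R.pt (h'.1 (Sum.inl 0)))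
  set v2 := inner ℝ (R.pt (h'.1 (Sum.inr 2)) - R.pt (h'.1 (Sum.inl 0))) (R.pt (h'.1 (Sum.inr 2)) - R.pt (h'.1 (Sum.inl 1)))
  set d0 := bil M (R.pt (h.1 (Sum.inl 0))) (R.pt (h'.1 (Sum.inl 0)))
  set d1 := bil M (R.pt (h.1 (Sum.inl 1))) (R.pt (h'.1 (Sum.inl 1)))
  set d2 := bil M (R.pt (h.1 (Sum.inl 2))) (R.pt (h'.1 (Sum.inl 2)))
  have g1 : 0 < (u0 * v0 * (d1 * d2)) * (u1 * v1 * (d2 * d0)) := mul_pos_of_neg_of_neg f0 f1
  have g2 : (u0 * v0 * (d1 * d2)) * (u1 * v1 * (d2 * d0)) * (u2 * v2 * (d0 * d1)) < 0 :=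
    mul_neg_of_pos_of_neg g1 f2
  have g3 : (u0 * v0 * (d1 * d2)) * (u1 * v1 * (d2 * d0)) * (u2 * v2 * (d0 * d1)) =
      (u0 * u1 * u2 * (v0 * v1 * v2)) * (d0 * d1 * d2) ^ 2 := by ring
  rw [g3] at g2
  by_contra hc
  push Not at hc
  exact absurd g2 (not_lt.mpr (mul_nonneg hc (sq_nonneg _)))

/-- two linear forms vanishing at two distinct points of the plane are proportional -/
theorem para {u u' : Fin 3 → ℝ} {A B : Plane} (hAB : A ≠ B) (h1 : u ⬝ᵥ hom A = 0)
    (h2 : u ⬝ᵥ hom B = 0) (h3 : u' ⬝ᵥ hom A = 0) (h4 : u' ⬝ᵥ hom B = 0) :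
    u 0 * u' 1 = u 1 * u' 0 ∧ u 0 * u' 2 = u 2 * u' 0 ∧ u 1 * u' 2 = u 2 * u' 1 := by
  simp only [dotProduct, Fin.sum_univ_three, hom_zero, hom_one, hom_two, mul_one] at h1 h2 h3 h4
  have hne : A 0 - B 0 ≠ 0 ∨ A 1 - B 1 ≠ 0 := by
    by_contra hc
    push Not at hc
    apply hAB
    ext k
    fin_cases k
    · simp; linarith [hc.1]
    · simp; linarith [hc.2]
  have e1 : u 0 * (A 0 - B 0) + u 1 * (A 1 - B 1) = 0 := by linarith
  have e2 : u' 0 * (A 0 - B 0) + u' 1 * (A 1 - B 1) = 0 := by linarith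
  have key : u 0 * u' 1 = u 1 * u' 0 := by
    rcases hne with h | h
    · have : (u 0 * u' 1 - u 1 * u' 0) * (A 0 - B 0) = 0 := by
        linear_combination u' 1 * e1 - u 1 * e2
      have := (mul_eq_zero.mp this).resolve_right h
      linarith
    · have : (u 0 * u' 1 - u 1 * u' 0) * (A 1 - B 1) = 0 := by
        linear_combination u 0 * e2 - u' 0 * e1
      have := (mul_eq_zero.mp this).resolve_right h
      linarith
  refine ⟨key, ?_, ?_⟩
  · linear_combination u 0 * h3 - u' 0 * h1 - A 1 * key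
  · linear_combination u 1 * h3 - u' 1 * h1 + A 0 * key

theorem hom_ne_zero (x : Plane) : hom x ≠ 0 := by
  intro h
  have := congrFun h 2
  simp [hom] at this

theorem pt_eq_of_vecMul {M : Matrix (Fin 3) (Fin 3) ℝ} (hM : M.det ≠ 0) {P P' A B : Plane}
    (hAB : A ≠ B) (h1 : bil M P A = 0) (h2 : bil M P B = 0) (h3 : bil M P' A = 0)
    (h4 : bil M P' B = 0) : P = P' := by
  simp only [bil, Matrix.dotProduct_mulVec] at h1 h2 h3 h4
  obtain ⟨c1, c2, c3⟩ := para hAB h1 h2 h3 h4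
  set u := Matrix.vecMul (hom P) M with hu
  set u' := Matrix.vecMul (hom P') M with hu'
  have hu0 : u ≠ 0 := fun h0 => hom_ne_zero P (Matrix.eq_zero_of_vecMul_eq_zero hM h0)
  obtain ⟨i, hi⟩ : ∃ i, u i ≠ 0 := by
    by_contra hc
    push Not at hc
    exact hu0 (funext hc)
  have hcross : ∀ i j, u i * u' j = u j * u' i := by
    intro i j
    fin_cases i <;> fin_cases j <;> simp <;> linarith
  have e : u' = (u' i / u i) • u := by
    funext j
    have := hcross i j
    simp only [Pi.smul_apply, smul_eq_mul]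
    field_simp
    linarith
  have e2 : Matrix.vecMul (hom P' - (u' i / u i) • hom P) M = 0 := by
    rw [Matrix.sub_vecMul, Matrix.smul_vecMul, ← hu, ← hu', ← e, sub_self]
  have e3 := Matrix.eq_zero_of_vecMul_eq_zero hM e2
  rw [sub_eq_zero] at e3
  have e4 := congrFun e3 2
  have e5 := congrFun e3 0
  have e6 := congrFun e3 1
  simp only [Pi.smul_apply, smul_eq_mul, hom_zero, hom_one, hom_two, mul_one] at e4 e5 e6
  rw [← e4, one_mul] at e5 e6
  ext k
  fin_cases k
  · exact e5.symm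
  · exact e6.symm

theorem bil_transpose (M : Matrix (Fin 3) (Fin 3) ℝ) (x y : Plane) :
    bil M.transpose x y = bil M y x := by
  simp only [bil, Matrix.mulVec_transpose, Matrix.dotProduct_mulVec]
  rw [dotProduct_comm, ← Matrix.dotProduct_mulVec, Matrix.dotProduct_mulVec]

theorem two_points (j : Fin n) : ∃ A B : Plane, A ≠ B ∧ A ∈ R.ln j ∧ B ∈ R.ln j := by
  obtain ⟨⟨A, hA⟩, h1⟩ := R.ln_line j
  have : (R.ln j).direction ≠ ⊥ := by
    intro h0
    rw [h0] at h1
    simp at h1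
  obtain ⟨v, hv, hv0⟩ := Submodule.exists_mem_ne_zero_of_ne_bot this
  refine ⟨A, v +ᵥ A, ?_, hA, AffineSubspace.vadd_mem_of_mem_direction hv hA⟩
  intro h
  have : v = 0 := by simpa using h.symm
  exact hv0 this

/-- **Parity obstruction.** If some realization is mapped onto itself by a correlation then the
number of labelled cevian triangles is divisible by 4 (so the number of cevian triangles, each of
which has 6 labellings, is even). -/
theorem four_dvd_of_selfCorrelated (hR : SelfCorrelated R) : 4 ∣ (Cev C.inc).ncard := by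
  classical
  obtain ⟨M, hdet, hM1, hM2⟩ := hR
  choose α hα using hM1
  choose γ hγ using hM2
  have hinc : ∀ k i, C.inc k (γ i) ↔ C.inc i (α k) := by
    intro k i
    rw [← R.inc_iff k (γ i), ← R.inc_iff i (α k), hγ, hα]
  have hαb : ∀ i k, bil M (R.pt i) (R.pt k) = 0 ↔ C.inc k (α i) := by
    intro i k
    rw [← R.inc_iff k (α i), hα]
    rfl
  have hαinj : Function.Injective α := by
    intro i i' h
    obtain ⟨A, B, hAB, hA, hB⟩ := two_points R (α i)
    have h1 := (hα i A).mp hA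
    have h2 := (hα i B).mp hB
    rw [h] at hA hB
    have h3 := (hα i' A).mp hA
    have h4 := (hα i' B).mp hB
    exact R.pt_inj (pt_eq_of_vecMul hdet hAB h1 h2 h3 h4)
  have hγinj : Function.Injective γ := by
    intro i i' h
    obtain ⟨A, B, hAB, hA, hB⟩ := two_points R (γ i)
    have h1 := (hγ i A).mp hA
    have h2 := (hγ i B).mp hB
    rw [h] at hA hB
    have h3 := (hγ i' A).mp hA
    have h4 := (hγ i' B).mp hB
    have hdet' : M.transpose.det ≠ 0 := by rwa [Matrix.det_transpose]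
    refine R.pt_inj (pt_eq_of_vecMul hdet' hAB ?_ ?_ ?_ ?_) <;> rw [bil_transpose] <;> assumption
  let g : Equiv.Perm (Fin n) := Equiv.ofBijective γ (Finite.injective_iff_bijective.mp hγinj)
  have hg : ∀ j, γ (g.symm j) = j := fun j => g.apply_symm_apply j
  let Φ : Cev C.inc → Cev C.inc := fun h =>
    ⟨(fun a => g.symm (h.1.2 a), fun a => α (h.1.1 a)), by
      obtain ⟨i1, i2, i3⟩ := h.2
      refine ⟨g.symm.injective.comp i2, hαinj.comp i1, ?_⟩
      intro a b hab
      change C.inc (g.symm (h.1.2 a)) (α (h.1.1 b))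
      rw [← hinc, hg]
      exact i3 b a ((kinc_symm _ _).mp hab)⟩
  let τ : Cev C.inc → Cev C.inc := fun h =>
    ⟨(h.1.1 ∘ tK, h.1.2 ∘ tK), by
      obtain ⟨i1, i2, i3⟩ := h.2
      exact ⟨i1.comp tK_inj, i2.comp tK_inj, fun a b hab => i3 _ _ ((tK_kinc a b).mpr hab)⟩⟩
  have hw : ∀ h : Cev C.inc, wgt (fun a => R.pt (h.1.1 a)) * wgt (fun a => R.pt ((Φ h).1.1 a)) < 0 := by
    intro h
    apply flip R M h.2 (Φ h).2
    intro a b
    rw [hαb]
  have := four_dvd τ ?_ ?_ Φ ?_ (fun h => 0 < wgt (fun a => R.pt (h.1.1 a))) ?_ ?_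
  · rw [← Nat.card_eq_fintype_card] at this
    exact this
  · intro h
    apply Subtype.ext
    apply Prod.ext <;> funext a <;> simp [τ, tK_tK]
  · intro h h0
    have h1 := congrArg (fun z : Cev C.inc => z.1.1 (Sum.inl 1)) h0
    simp only [τ, Function.comp] at h1
    have h2 := h.2.1 h1
    exact absurd h2 (by decide)
  · intro h h' h0
    apply Subtype.ext
    apply Prod.ext
    · funext a
      have := congrArg (fun z : Cev C.inc => z.1.2 a) h0
      exact hαinj this
    · funext a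
      have := congrArg (fun z : Cev C.inc => z.1.1 a) h0
      exact g.symm.injective this
  · intro h
    have : wgt (fun a => R.pt ((τ h).1.1 a)) = wgt (fun a => R.pt (h.1.1 a)) :=
      wgt_tK (fun a => R.pt (h.1.1 a))
    rw [this]
  · intro h
    have := hw h
    constructor
    · intro h1 h2
      exact absurd this (not_lt.mpr (mul_pos h2 h1).le)
    · intro h1
      push Not at h1
      by_contra h2
      push Not at h2
      exact absurd this (not_lt.mpr (mul_nonneg_of_nonpos_of_nonpos h1 h2))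

end

end Pool.Agent.Y845.CP
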