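import Mathlib
import Pool.Agent.Y845.CP.Crit

set_option autoImplicit false

namespace Pool.Agent.Y845.CP

open Pool.Agent.Results.MP_8aa8ea_co.NotSelfPolar

theorem inner_eq (x y : Plane) : inner ℝ x y = x 0 * y 0 + x 1 * y 1 := by
  simp [PiLp.inner_apply, Fin.sum_univ_two]
  ring

/-- coordinates of an isometry of the plane -/
theorem isometry_coord (g : Plane ≃ᵢ Plane) : ∃ u v b : Plane,
    (u 0 * v 1 - u 1 * v 0) ≠ 0 ∧ ∀ x, (g x) 0 = b 0 + x 0 * u 0 + x 1 * v 0 ∧
      (g x) 1 = b 1 + x 0 * u 1 + x 1 * v 1 := by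
  let f := g.toRealAffineIsometryEquiv
  have hf : ∀ x, f x = g x := fun x => rfl
  let L := f.linearIsometryEquiv
  let e0 : Plane := !₂[1, 0]
  let e1 : Plane := !₂[0, 1]
  have hL : ∀ x, g x = L x + g 0 := by
    intro x
    have := f.map_vadd 0 x
    simp only [vadd_eq_add, add_zero] at this
    rw [← hf x, ← hf 0]
    exact this
  have hx : ∀ x : Plane, x = x 0 • e0 + x 1 • e1 := by
    intro x
    ext k
    fin_cases k <;> simp [e0, e1]
  refine ⟨L e0, L e1, g 0, ?_, ?_⟩
  · have h0 : inner ℝ (L e0) (L e0) = (1 : ℝ) := by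
      rw [L.inner_map_map, inner_eq]; simp [e0]
    have h1 : inner ℝ (L e1) (L e1) = (1 : ℝ) := by
      rw [L.inner_map_map, inner_eq]; simp [e1]
    have h2 : inner ℝ (L e0) (L e1) = (0 : ℝ) := by
      rw [L.inner_map_map, inner_eq]; simp [e0, e1]
    rw [inner_eq] at h0 h1 h2
    intro hd
    generalize (L e0) 0 = a at *
    generalize (L e0) 1 = b at *
    generalize (L e1) 0 = c at *
    generalize (L e1) 1 = d at *
    have : (1 : ℝ) = 0 := by
      linear_combination (-(c * c + d * d)) * h0 - h1 + (a * c + b * d) * h2 + (a * d - b * c) * hd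
    exact one_ne_zero this
  · intro x
    have h1 : g x = x 0 • L e0 + x 1 • L e1 + g 0 := by
      rw [hL x]
      conv_lhs => rw [hx x]
      rw [map_add, map_smul, map_smul]
    rw [h1]
    simp only [PiLp.add_apply, PiLp.smul_apply, smul_eq_mul]
    constructor <;> ring

/-- Being congruent to the polar in a circle is a special case of being mapped onto itself by a
correlation. -/
theorem selfCorrelated_of_congruent {n q : ℕ} {C : Config n q} (R : Realization C) {c : Plane}
    {r : ℝ} (hr : 0 < r) (h : CongruentToPolar R c r) : SelfCorrelated R := by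
  obtain ⟨g, hg1, hg2⟩ := h
  obtain ⟨u, v, b, hd, hx⟩ := isometry_coord g.symm
  let M : Matrix (Fin 3) (Fin 3) ℝ := !![u 0, v 0, b 0 - c 0; u 1, v 1, b 1 - c 1;
    -c 0 * u 0 - c 1 * u 1, -c 0 * v 0 - c 1 * v 1, -c 0 * (b 0 - c 0) - c 1 * (b 1 - c 1) - r ^ 2]
  have hM : ∀ P x : Plane, hom P ⬝ᵥ M.mulVec (hom x) = inner ℝ (P - c) (g.symm x - c) - r ^ 2 := by
    intro P x
    rw [inner_eq]
    simp only [dotProduct, Matrix.mulVec, Fin.sum_univ_three, hom_zero, hom_one, hom_two,
      PiLp.sub_apply, (hx x).1, (hx x).2]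
    simp only [M, Matrix.of_apply, Matrix.cons_val', Matrix.cons_val_zero, Matrix.cons_val_one,
      Matrix.cons_val]
    ring
  refine ⟨M, ?_, ?_, ?_⟩
  · have : M.det = -r ^ 2 * (u 0 * v 1 - u 1 * v 0) := by
      rw [Matrix.det_fin_three]
      simp only [M, Matrix.of_apply, Matrix.cons_val', Matrix.cons_val_zero, Matrix.cons_val_one,
        Matrix.cons_val]
      ring
    rw [this]
    exact mul_ne_zero (neg_ne_zero.mpr (pow_ne_zero 2 hr.ne')) hd
  · intro i
    have h1 : g '' polarLine c r (R.pt i) ∈ (fun s : Set Plane => g '' s) '' polarLines R c r :=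
      ⟨_, ⟨i, rfl⟩, rfl⟩
    rw [hg2] at h1
    obtain ⟨j, hj⟩ := h1
    refine ⟨j, fun x => ?_⟩
    simp only at hj
    rw [← SetLike.mem_coe, hj, hM]
    constructor
    · rintro ⟨y, hy, rfl⟩
      rw [IsometryEquiv.symm_apply_apply, real_inner_comm]
      simp only [polarLine, Set.mem_ofPred_eq] at hy
      rw [hy, sub_self]
    · intro hy
      refine ⟨g.symm x, ?_, IsometryEquiv.apply_symm_apply _ _⟩
      simp only [polarLine, Set.mem_ofPred_eq]
      rw [real_inner_comm]
      linarith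
  · intro i
    have h1 : R.pt i ∈ g '' polarPoints R c r := by rw [hg1]; exact ⟨i, rfl⟩
    obtain ⟨y, ⟨hy, j, hj⟩, hgy⟩ := h1
    refine ⟨j, fun x => ?_⟩
    rw [← SetLike.mem_coe, ← hj, hM, ← hgy, IsometryEquiv.symm_apply_apply]
    simp only [polarLine, Set.mem_ofPred_eq]
    constructor
    · intro h; rw [h, sub_self]
    · intro h; linarith

end Pool.Agent.Y845.CP
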