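import Mathlib
import Pool.Agent.Y845.CP.Crit

set_option autoImplicit false

namespace Pool.Agent.Y845.CP

open Pool.Agent.Results.MP_8aa8ea_co.NotSelfPolar

abbrev V3 := Fin 3 → ℝ

/-- avoiding finitely many proper affine hyperplanes with a vector on the twisted cubic -/
theorem avoid {ι : Type*} [Finite ι] (c : ι → ℝ) (v : ι → V3) (h : ∀ i, v i ≠ 0) :
    ∃ w : V3, ∀ i, c i + w ⬝ᵥ v i ≠ 0 := by
  classical
  cases nonempty_fintype ι
  let f : ι → Polynomial ℝ := fun i => Polynomial.C (c i) + Polynomial.C (v i 0) * Polynomial.X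
    + Polynomial.C (v i 1) * Polynomial.X ^ 2 + Polynomial.C (v i 2) * Polynomial.X ^ 3
  have hf : ∀ i, f i ≠ 0 := by
    intro i h0
    apply h i
    have c1 : (f i).coeff 1 = v i 0 := by
      simp [f, Polynomial.coeff_X_pow, Polynomial.coeff_C, Polynomial.coeff_X]
    have c2 : (f i).coeff 2 = v i 1 := by
      simp [f, Polynomial.coeff_X_pow, Polynomial.coeff_C, Polynomial.coeff_X]
    have c3 : (f i).coeff 3 = v i 2 := by
      simp [f, Polynomial.coeff_X_pow, Polynomial.coeff_C, Polynomial.coeff_X]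
    rw [h0] at c1 c2 c3
    simp only [Polynomial.coeff_zero] at c1 c2 c3
    funext k
    fin_cases k
    · exact c1.symm
    · exact c2.symm
    · exact c3.symm
  have hp : (∏ i, f i) ≠ 0 := Finset.prod_ne_zero_iff.mpr fun i _ => hf i
  obtain ⟨t, ht⟩ := Infinite.exists_notMem_finset (∏ i, f i).roots.toFinset
  refine ⟨![t, t ^ 2, t ^ 3], fun i h0 => ht ?_⟩
  rw [Multiset.mem_toFinset, Polynomial.mem_roots hp, Polynomial.IsRoot, Polynomial.eval_prod]
  apply Finset.prod_eq_zero (Finset.mem_univ i)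
  simp only [dotProduct, Fin.sum_univ_three] at h0
  simp only [f, Polynomial.eval_add, Polynomial.eval_mul, Polynomial.eval_C, Polynomial.eval_X,
    Polynomial.eval_pow]
  have e2 : (![t, t ^ 2, t ^ 3] : V3) 2 = t ^ 3 := rfl
  rw [e2] at h0
  simp only [Matrix.cons_val_zero, Matrix.cons_val_one] at h0
  linarith

/-- the twisted action: `A + (w·A) O`, `(1 + w·O) B - (B·O) w` -/
theorem twist_dot (O w A B : V3) :
    (A + (w ⬝ᵥ A) • O) ⬝ᵥ ((1 + w ⬝ᵥ O) • B - (B ⬝ᵥ O) • w) = (1 + w ⬝ᵥ O) * (A ⬝ᵥ B) := by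
  simp only [dotProduct, Fin.sum_univ_three, Pi.add_apply, Pi.smul_apply, Pi.sub_apply, smul_eq_mul]
  ring

theorem cross_dot_self_left (u v : V3) : (crossProduct u v) ⬝ᵥ u = 0 := by
  rw [dotProduct_comm]; exact dot_self_cross u v

theorem cross_dot_self_right (u v : V3) : (crossProduct u v) ⬝ᵥ v = 0 := by
  rw [dotProduct_comm]; exact dot_cross_self u v

/-- If `u × v ≠ 0` and `x` is orthogonal to both then `x` is a multiple of `u × v`. -/
theorem ortho_cross {u v x : V3} (h : crossProduct u v ≠ 0) (h1 : x ⬝ᵥ u = 0) (h2 : x ⬝ᵥ v = 0) :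
    ∃ c : ℝ, x = c • crossProduct u v := by
  have e : ∀ a b : V3, crossProduct a b = ![a 1 * b 2 - a 2 * b 1, a 2 * b 0 - a 0 * b 2, a 0 * b 1 - a 1 * b 0] :=
    fun a b => cross_apply a b
  have hw : 0 < (crossProduct u v) ⬝ᵥ (crossProduct u v) := by
    have := Matrix.dotProduct_star_self_pos_iff (v := crossProduct u v)
    rw [show (star (crossProduct u v)) = crossProduct u v from by ext; simp] at this
    exact this.mpr h
  refine ⟨(x ⬝ᵥ crossProduct u v) / ((crossProduct u v) ⬝ᵥ (crossProduct u v)), ?_⟩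
  set w := crossProduct u v with hwdef
  have key : (w ⬝ᵥ w) • x = (x ⬝ᵥ w) • w := by
    have h3 : crossProduct x w = 0 := by
      have : crossProduct x w = (x ⬝ᵥ v) • u - (x ⬝ᵥ u) • v := by
        rw [hwdef]
        funext k
        simp only [e, dotProduct, Fin.sum_univ_three]
        fin_cases k <;> simp <;> ring
      rw [this, h1, h2]; simp
    have h4 : crossProduct (crossProduct x w) w = (x ⬝ᵥ w) • w - (w ⬝ᵥ w) • x := by
      funext k
      simp only [e, dotProduct, Fin.sum_univ_three]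
      fin_cases k <;> simp <;> ring
    rw [h3] at h4
    simp only [map_zero, LinearMap.zero_apply] at h4
    exact (sub_eq_zero.mp h4.symm).symm
  rw [div_eq_inv_mul, mul_smul, ← key, smul_smul, inv_mul_cancel₀ hw.ne', one_smul]

end Pool.Agent.Y845.CP
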