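import Mathlib
import Pool.Agent.Y845.CP.Vec

set_option autoImplicit false

namespace Pool.Agent.Y845.CP

open Pool.Agent.Results.MP_8aa8ea_co.NotSelfPolar

theorem cross_zero {u v : V3} (h : crossProduct u v = 0) (hu : u ≠ 0) : ∃ s : ℝ, v = s • u := by
  obtain ⟨k, hk⟩ : ∃ k, u k ≠ 0 := by
    by_contra hc
    push Not at hc
    exact hu (funext hc)
  rw [cross_apply] at h
  have h0 := congrFun h 0
  have h1 := congrFun h 1
  have h2 := congrFun h 2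
  have e2 : (![u 1 * v 2 - u 2 * v 1, u 2 * v 0 - u 0 * v 2, u 0 * v 1 - u 1 * v 0] : V3) 2
    = u 0 * v 1 - u 1 * v 0 := rfl
  rw [e2] at h2
  simp only [Matrix.cons_val_zero, Matrix.cons_val_one, Pi.zero_apply] at h0 h1 h2
  have hc : ∀ l, u k * v l = u l * v k := by
    intro l
    fin_cases k <;> fin_cases l <;> simp <;> linarith
  refine ⟨v k / u k, ?_⟩
  funext l
  have := hc l
  simp only [Pi.smul_apply, smul_eq_mul]
  field_simp
  linarith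

theorem triple (a b c : V3) : (crossProduct a b) ⬝ᵥ c = a ⬝ᵥ crossProduct b c := by
  rw [cross_apply, cross_apply]
  simp only [dotProduct, Fin.sum_univ_three]
  simp
  ring

theorem cross_cross_same (O a b : V3) :
    crossProduct (crossProduct O a) (crossProduct O b) = (O ⬝ᵥ crossProduct a b) • O := by
  simp only [cross_apply]
  funext k
  simp only [dotProduct, Fin.sum_univ_three]
  fin_cases k <;> simp <;> ring

theorem pencil {z b0 b1 b2 : V3} (hz : z ≠ 0) (h0 : z ⬝ᵥ b0 = 0) (h1 : z ⬝ᵥ b1 = 0)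
    (h2 : z ⬝ᵥ b2 = 0) (c01 : crossProduct b0 b1 ≠ 0) (c02 : crossProduct b0 b2 ≠ 0)
    (c12 : crossProduct b1 b2 ≠ 0) : ∃ α β : ℝ, α ≠ 0 ∧ β ≠ 0 ∧ b2 = α • b0 + β • b1 := by
  obtain ⟨c, hc⟩ := ortho_cross c01 h0 h1
  have hc0 : c ≠ 0 := by
    rintro rfl
    exact hz (by rw [hc, zero_smul])
  have hw2 : (crossProduct b0 b1) ⬝ᵥ b2 = 0 := by
    rw [hc, smul_dotProduct, smul_eq_mul] at h2
    exact (mul_eq_zero.mp h2).resolve_left hc0
  have hw : (crossProduct b0 b1) ⬝ᵥ (crossProduct b0 b1) ≠ 0 := by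
    intro h
    exact c01 (dotProduct_self_eq_zero.mp h)
  set w := crossProduct b0 b1 with hwd
  have key : (w ⬝ᵥ w) • b2 = (w ⬝ᵥ crossProduct b2 b1) • b0 + (w ⬝ᵥ crossProduct b0 b2) • b1
      + (w ⬝ᵥ b2) • w := by
    rw [hwd]
    simp only [cross_apply]
    funext k
    simp only [dotProduct, Fin.sum_univ_three]
    fin_cases k <;> simp <;> ring
  have e : b2 = ((w ⬝ᵥ crossProduct b2 b1) / (w ⬝ᵥ w)) • b0
      + ((w ⬝ᵥ crossProduct b0 b2) / (w ⬝ᵥ w)) • b1 := by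
    have e2 : b2 = (w ⬝ᵥ w)⁻¹ • ((w ⬝ᵥ w) • b2) := by
      rw [smul_smul, inv_mul_cancel₀ hw, one_smul]
    rw [key, hw2, zero_smul, add_zero, smul_add, smul_smul, smul_smul] at e2
    rw [div_eq_inv_mul, div_eq_inv_mul]
    exact e2
  refine ⟨_, _, ?_, ?_, e⟩
  · intro h0
    rw [h0, zero_smul, zero_add] at e
    apply c12
    rw [e, map_smul, cross_self, smul_zero]
  · intro h0
    rw [h0, zero_smul, add_zero] at e
    apply c02
    rw [e, map_smul, cross_self, smul_zero]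

/-- the linear map sending one frame of a pencil to another -/
theorem frame {b0 b1 b2 t0 t1 t2 : V3} {α β α' β' : ℝ} (hα : α ≠ 0) (hβ : β ≠ 0) (hα' : α' ≠ 0)
    (hβ' : β' ≠ 0) (hb : b2 = α • b0 + β • b1) (ht : t2 = α' • t0 + β' • t1)
    (cb : crossProduct b0 b1 ≠ 0) (ct : crossProduct t0 t1 ≠ 0) :
    ∃ N : Matrix (Fin 3) (Fin 3) ℝ, N.det ≠ 0 ∧ (∃ c : ℝ, c ≠ 0 ∧ N.mulVec b0 = c • t0) ∧
      (∃ c : ℝ, c ≠ 0 ∧ N.mulVec b1 = c • t1) ∧ N.mulVec b2 = t2 := by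
  let U : Matrix (Fin 3) (Fin 3) ℝ := (Matrix.of ![b0, b1, crossProduct b0 b1]).transpose
  let U' : Matrix (Fin 3) (Fin 3) ℝ :=
    (Matrix.of ![(α' / α) • t0, (β' / β) • t1, crossProduct t0 t1]).transpose
  have hU : U.det ≠ 0 := by
    have : U.det = (crossProduct b0 b1) ⬝ᵥ (crossProduct b0 b1) := by
      simp only [U, Matrix.det_transpose]
      rw [Matrix.det_fin_three]
      simp [cross_apply, dotProduct, Fin.sum_univ_three]
      ring
    rw [this]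
    intro h
    exact cb (dotProduct_self_eq_zero.mp h)
  have hU' : U'.det ≠ 0 := by
    have : U'.det = (α' / α) * (β' / β) * ((crossProduct t0 t1) ⬝ᵥ (crossProduct t0 t1)) := by
      simp only [U', Matrix.det_transpose]
      rw [Matrix.det_fin_three]
      simp [cross_apply, dotProduct, Fin.sum_univ_three]
      ring
    rw [this]
    refine mul_ne_zero (mul_ne_zero (div_ne_zero hα' hα) (div_ne_zero hβ' hβ)) ?_
    intro h
    exact ct (dotProduct_self_eq_zero.mp h)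
  have hUi : IsUnit U.det := isUnit_iff_ne_zero.mpr hU
  have e0 : U.mulVec ![1, 0, 0] = b0 := by
    funext k; simp [U, Matrix.mulVec, dotProduct, Fin.sum_univ_three]
  have e1 : U.mulVec ![0, 1, 0] = b1 := by
    funext k; simp [U, Matrix.mulVec, dotProduct, Fin.sum_univ_three]
  have e0' : U'.mulVec ![1, 0, 0] = (α' / α) • t0 := by
    funext k; simp [U', Matrix.mulVec, dotProduct, Fin.sum_univ_three]
  have e1' : U'.mulVec ![0, 1, 0] = (β' / β) • t1 := by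
    funext k; simp [U', Matrix.mulVec, dotProduct, Fin.sum_univ_three]
  have f0 : (U' * U⁻¹).mulVec b0 = (α' / α) • t0 := by
    rw [← e0, Matrix.mulVec_mulVec, Matrix.mul_assoc, Matrix.nonsing_inv_mul _ hUi,
      Matrix.mul_one, e0']
  have f1 : (U' * U⁻¹).mulVec b1 = (β' / β) • t1 := by
    rw [← e1, Matrix.mulVec_mulVec, Matrix.mul_assoc, Matrix.nonsing_inv_mul _ hUi,
      Matrix.mul_one, e1']
  refine ⟨U' * U⁻¹, ?_, ⟨α' / α, div_ne_zero hα' hα, f0⟩, ⟨β' / β, div_ne_zero hβ' hβ, f1⟩, ?_⟩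
  · rw [Matrix.det_mul]
    refine mul_ne_zero hU' ?_
    intro h
    have := Matrix.det_nonsing_inv_mul_det U hUi
    rw [h, zero_mul] at this
    exact zero_ne_one this
  · rw [hb, Matrix.mulVec_add, Matrix.mulVec_smul, Matrix.mulVec_smul, f0, f1, ht, smul_smul, smul_smul]
    congr 2
    · field_simp
    · field_simp

section
variable {m : ℕ} (C : Config m 3)

/-- On every line there are two distinct points. -/
theorem two_on (j : Fin m) : ∃ i i', i ≠ i' ∧ C.inc i j ∧ C.inc i' j := by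
  obtain ⟨x, y, z, hxy, hxz, hyz, h⟩ := Set.ncard_eq_three.mp (C.points_on j)
  have hx : x ∈ {i | C.inc i j} := by rw [h]; simp
  have hy : y ∈ {i | C.inc i j} := by rw [h]; simp
  exact ⟨x, y, hxy, hx, hy⟩

theorem two_through (i : Fin m) : ∃ j j', j ≠ j' ∧ C.inc i j ∧ C.inc i j' := by
  obtain ⟨x, y, z, hxy, hxz, hyz, h⟩ := Set.ncard_eq_three.mp (C.lines_through i)
  have hx : x ∈ {j | C.inc i j} := by rw [h]; simp
  have hy : y ∈ {j | C.inc i j} := by rw [h]; simp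
  exact ⟨x, y, hxy, hx, hy⟩

/-- a line `≠ j` through a given point -/
theorem other_through (i j : Fin m) : ∃ j', j' ≠ j ∧ C.inc i j' := by
  obtain ⟨x, y, hxy, hx, hy⟩ := two_through C i
  by_cases h : x = j
  · exact ⟨y, fun h' => hxy (h.trans h'.symm), hy⟩
  · exact ⟨x, h, hx⟩

theorem other_on (i j : Fin m) : ∃ i', i' ≠ i ∧ C.inc i' j := by
  obtain ⟨x, y, hxy, hx, hy⟩ := two_on C j
  by_cases h : x = i
  · exact ⟨y, fun h' => hxy (h.trans h'.symm), hy⟩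
  · exact ⟨x, h, hx⟩

variable {C}

theorem line_ne {a b : Fin m → V3} (hE : ∀ i j, a i ⬝ᵥ b j = 0 ↔ C.inc i j) (j : Fin m) :
    b j ≠ 0 := by
  intro h
  have hall : ∀ i, C.inc i j := fun i => (hE i j).mp (by rw [h, dotProduct_zero])
  obtain ⟨j', hj', hi⟩ := other_through C j j
  obtain ⟨i', hi', hi2⟩ := other_on C j j'
  exact hj' (C.unique_line i' j j' j hi' hi2 hi (hall _) (hall _))

theorem point_ne {a b : Fin m → V3} (hE : ∀ i j, a i ⬝ᵥ b j = 0 ↔ C.inc i j) (i : Fin m) :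
    a i ≠ 0 := by
  intro h
  have hall : ∀ j, C.inc i j := fun j => (hE i j).mp (by rw [h, zero_dotProduct])
  obtain ⟨i', hi', hi⟩ := other_on C i i
  obtain ⟨j', hj', hj2⟩ := other_through C i' i
  exact hj' (C.unique_line i' i j' i hi' hj2 (hall _) hi (hall _))

theorem line_cross {a b : Fin m → V3} (hE : ∀ i j, a i ⬝ᵥ b j = 0 ↔ C.inc i j) {j j' : Fin m}
    (h : j ≠ j') : crossProduct (b j) (b j') ≠ 0 := by
  intro h0
  obtain ⟨s, hs⟩ := cross_zero h0 (line_ne hE j)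
  obtain ⟨x, y, hxy, hx, hy⟩ := two_on C j
  have hx' : C.inc x j' := (hE _ _).mp (by rw [hs, dotProduct_smul, (hE _ _).mpr hx, smul_zero])
  have hy' : C.inc y j' := (hE _ _).mp (by rw [hs, dotProduct_smul, (hE _ _).mpr hy, smul_zero])
  exact h (C.unique_line x y j j' hxy hx hy hx' hy')

/-- **Gluing lemma.** -/
theorem glue {a b : Fin m → V3} (hE : ∀ i j, a i ⬝ᵥ b j = 0 ↔ C.inc i j) (p : Fin m)
    (L3 : Fin 3 → Fin m) (hinj : Function.Injective L3) (hL3 : ∀ j, C.inc p j ↔ ∃ k, L3 k = j)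
    (q : Fin 3 → V3) (hq : ∀ k l, k ≠ l → crossProduct (q k) (q l) ≠ 0)
    {ι κ : Type} [Finite ι] [Finite κ] (s : ι → V3) (hs : ∀ k i, crossProduct (q k) (s i) ≠ 0)
    (r : κ → V3) (hr : ∀ i, r i ≠ 0) :
    ∃ A B : Fin m → V3, (∀ i j, A i ⬝ᵥ B j = 0 ↔ C.inc i j) ∧
      (∀ k j, q k ⬝ᵥ B j = 0 ↔ L3 k = j) ∧ (∀ i j, s i ⬝ᵥ B j ≠ 0) ∧
      (∀ x i, A x ⬝ᵥ r i ≠ 0) := by
  classical
  -- the centre
  obtain ⟨O, hO⟩ := avoid (ι := {kl : Fin 3 × Fin 3 // kl.1 ≠ kl.2} ⊕ (Fin 3 × ι) ⊕ κ) (fun _ => 0)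
    (Sum.elim (fun kl => crossProduct (q kl.1.1) (q kl.1.2))
      (Sum.elim (fun ki => crossProduct (q ki.1) (s ki.2)) r)) (by
      rintro (⟨⟨k, l⟩, hkl⟩ | ⟨k, i⟩ | i)
      · exact hq k l hkl
      · exact hs k i
      · exact hr i)
  have hO1 : ∀ k l, k ≠ l → O ⬝ᵥ crossProduct (q k) (q l) ≠ 0 := fun k l hkl => by
    have := hO (Sum.inl ⟨(k, l), hkl⟩)
    simpa using this
  have hO2 : ∀ k i, O ⬝ᵥ crossProduct (q k) (s i) ≠ 0 := fun k i => by
    have := hO (Sum.inr (Sum.inl (k, i)))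
    simpa using this
  have hO3 : ∀ i, O ⬝ᵥ r i ≠ 0 := fun i => by
    have := hO (Sum.inr (Sum.inr i))
    simpa using this
  have hO0 : O ≠ 0 := by
    rintro rfl
    exact hO1 0 1 (by decide) (by simp)
  let t : Fin 3 → V3 := fun k => crossProduct O (q k)
  have ht1 : ∀ k l, k ≠ l → t k ⬝ᵥ q l ≠ 0 := fun k l hkl => by
    simp only [t, triple]; exact hO1 k l hkl
  have ht2 : ∀ k i, t k ⬝ᵥ s i ≠ 0 := fun k i => by
    simp only [t, triple]; exact hO2 k i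
  have ht3 : ∀ k, t k ⬝ᵥ O = 0 := fun k => cross_dot_self_left _ _
  have ht4 : ∀ k, t k ⬝ᵥ q k = 0 := fun k => cross_dot_self_right _ _
  have ht5 : ∀ k l, k ≠ l → crossProduct (t k) (t l) ≠ 0 := fun k l hkl => by
    simp only [t, cross_cross_same]
    exact smul_ne_zero (hO1 k l hkl) hO0
  -- pencils
  have hp : ∀ k, a p ⬝ᵥ b (L3 k) = 0 := fun k => (hE _ _).mpr ((hL3 _).mpr ⟨k, rfl⟩)
  have hbc : ∀ k l, k ≠ l → crossProduct (b (L3 k)) (b (L3 l)) ≠ 0 := fun k l hkl =>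
    line_cross hE (hinj.ne hkl)
  obtain ⟨α, β, hα, hβ, hb⟩ := pencil (point_ne hE p) (hp 0) (hp 1) (hp 2) (hbc 0 1 (by decide))
    (hbc 0 2 (by decide)) (hbc 1 2 (by decide))
  obtain ⟨α', β', hα', hβ', ht⟩ := pencil hO0 (by rw [dotProduct_comm]; exact ht3 0)
    (by rw [dotProduct_comm]; exact ht3 1) (by rw [dotProduct_comm]; exact ht3 2)
    (ht5 0 1 (by decide)) (ht5 0 2 (by decide)) (ht5 1 2 (by decide))
  obtain ⟨N, hN, ⟨c0, hc0, hN0⟩, ⟨c1, hc1, hN1⟩, hN2⟩ := frame hα hβ hα' hβ' hb ht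
    (hbc 0 1 (by decide)) (ht5 0 1 (by decide))
  have hNk : ∀ k, ∃ c : ℝ, c ≠ 0 ∧ N.mulVec (b (L3 k)) = c • t k := by
    intro k
    fin_cases k
    · exact ⟨c0, hc0, hN0⟩
    · exact ⟨c1, hc1, hN1⟩
    · exact ⟨1, one_ne_zero, by rw [one_smul]; exact hN2⟩
  have hNi : IsUnit N.det := isUnit_iff_ne_zero.mpr hN
  let A0 : Fin m → V3 := fun i => N⁻¹.transpose.mulVec (a i)
  let B0 : Fin m → V3 := fun j => N.mulVec (b j)
  have hAB : ∀ i j, A0 i ⬝ᵥ B0 j = a i ⬝ᵥ b j := by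
    intro i j
    simp only [A0, B0]
    rw [Matrix.dotProduct_mulVec, Matrix.mulVec_transpose, Matrix.vecMul_vecMul,
      Matrix.nonsing_inv_mul _ hNi, Matrix.vecMul_one]
  have hE0 : ∀ i j, A0 i ⬝ᵥ B0 j = 0 ↔ C.inc i j := fun i j => by rw [hAB]; exact hE i j
  -- the image of p is O
  obtain ⟨cp, hcp⟩ : ∃ c : ℝ, A0 p = c • O := by
    obtain ⟨e0, he0, h0⟩ := hNk 0
    obtain ⟨e1, he1, h1⟩ := hNk 1
    have g0 : A0 p ⬝ᵥ t 0 = 0 := by
      have := (hE0 p (L3 0)).mpr ((hL3 _).mpr ⟨0, rfl⟩)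
      simp only [B0] at this
      rw [h0, dotProduct_smul, smul_eq_mul] at this
      exact (mul_eq_zero.mp this).resolve_left he0
    have g1 : A0 p ⬝ᵥ t 1 = 0 := by
      have := (hE0 p (L3 1)).mpr ((hL3 _).mpr ⟨1, rfl⟩)
      simp only [B0] at this
      rw [h1, dotProduct_smul, smul_eq_mul] at this
      exact (mul_eq_zero.mp this).resolve_left he1
    obtain ⟨c, hc⟩ := ortho_cross (ht5 0 1 (by decide)) g0 g1
    simp only [t, cross_cross_same] at hc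
    exact ⟨_, by rw [hc, smul_smul]⟩
  have hcp0 : cp ≠ 0 := by
    rintro rfl
    exact point_ne hE0 p (by rw [hcp, zero_smul])
  have hBO : ∀ j, B0 j ⬝ᵥ O = 0 ↔ C.inc p j := by
    intro j
    rw [← hE0 p j, hcp, smul_dotProduct, smul_eq_mul, mul_eq_zero, dotProduct_comm]
    simp [hcp0]
  -- the twist
  have hqO : ∀ k, crossProduct O (q k) ≠ 0 := by
    intro k h
    obtain ⟨l, hl⟩ : ∃ l, k ≠ l := by
      clear h
      revert k; decide
    exact ht1 k l hl (by simp only [t]; rw [h]; simp)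
  have hsO : ∀ i, crossProduct O (s i) ≠ 0 := by
    intro i h
    have h1 := triple O (s i) (q 0)
    rw [h, zero_dotProduct] at h1
    have h2 := hO2 0 i
    rw [← neg_cross, dotProduct_neg, ← h1, neg_zero] at h2
    exact h2 rfl
  have hv : ∀ (z : V3) (j : Fin m), crossProduct O z ≠ 0 → ¬ C.inc p j →
      (z ⬝ᵥ B0 j) • O - (B0 j ⬝ᵥ O) • z ≠ 0 := by
    intro z j hz hj h
    have h1 := congrArg (fun y => crossProduct O y) h
    simp only [map_sub, map_smul, cross_self, smul_zero, zero_sub, map_zero, neg_eq_zero] at h1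
    rcases smul_eq_zero.mp h1 with h2 | h2
    · exact hj ((hBO j).mp h2)
    · exact hz h2
  obtain ⟨w, hw⟩ := avoid
    (ι := Unit ⊕ (Fin 3 × {j : Fin m // ¬ C.inc p j}) ⊕ (ι × {j : Fin m // ¬ C.inc p j})
      ⊕ (Fin m × κ))
    (Sum.elim (fun _ => 1) (Sum.elim (fun kj => q kj.1 ⬝ᵥ B0 kj.2.1)
      (Sum.elim (fun ij => s ij.1 ⬝ᵥ B0 ij.2.1) (fun xi => A0 xi.1 ⬝ᵥ r xi.2))))
    (Sum.elim (fun _ => O) (Sum.elim (fun kj => (q kj.1 ⬝ᵥ B0 kj.2.1) • O - (B0 kj.2.1 ⬝ᵥ O) • q kj.1)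
      (Sum.elim (fun ij => (s ij.1 ⬝ᵥ B0 ij.2.1) • O - (B0 ij.2.1 ⬝ᵥ O) • s ij.1)
        (fun xi => (O ⬝ᵥ r xi.2) • A0 xi.1)))) (by
      rintro (_ | ⟨k, j⟩ | ⟨i, j⟩ | ⟨x, i⟩)
      · exact hO0
      · exact hv _ _ (hqO k) j.2
      · exact hv _ _ (hsO i) j.2
      · exact smul_ne_zero (hO3 i) (point_ne hE0 x))
  have hw0 : 1 + w ⬝ᵥ O ≠ 0 := hw (Sum.inl ())
  have hw1 : ∀ k j, ¬ C.inc p j →
      q k ⬝ᵥ B0 j + w ⬝ᵥ ((q k ⬝ᵥ B0 j) • O - (B0 j ⬝ᵥ O) • q k) ≠ 0 := fun k j hj =>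
    hw (Sum.inr (Sum.inl (k, ⟨j, hj⟩)))
  have hw2 : ∀ i j, ¬ C.inc p j →
      s i ⬝ᵥ B0 j + w ⬝ᵥ ((s i ⬝ᵥ B0 j) • O - (B0 j ⬝ᵥ O) • s i) ≠ 0 := fun i j hj =>
    hw (Sum.inr (Sum.inr (Sum.inl (i, ⟨j, hj⟩))))
  have hw3 : ∀ x i, A0 x ⬝ᵥ r i + w ⬝ᵥ ((O ⬝ᵥ r i) • A0 x) ≠ 0 := fun x i =>
    hw (Sum.inr (Sum.inr (Sum.inr (x, i))))
  have hexp : ∀ (z : V3) (j : Fin m), z ⬝ᵥ ((1 + w ⬝ᵥ O) • B0 j - (B0 j ⬝ᵥ O) • w) =
      z ⬝ᵥ B0 j + w ⬝ᵥ ((z ⬝ᵥ B0 j) • O - (B0 j ⬝ᵥ O) • z) := by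
    intro z j
    simp only [dotProduct, Fin.sum_univ_three, Pi.smul_apply, Pi.sub_apply, smul_eq_mul]
    ring
  have hL : ∀ k, ∀ z : V3, z ⬝ᵥ ((1 + w ⬝ᵥ O) • B0 (L3 k) - (B0 (L3 k) ⬝ᵥ O) • w) = 0 ↔
      z ⬝ᵥ t k = 0 := by
    intro k z
    obtain ⟨c, hc, h1⟩ := hNk k
    have h2 : B0 (L3 k) ⬝ᵥ O = 0 := (hBO _).mpr ((hL3 _).mpr ⟨k, rfl⟩)
    rw [h2, zero_smul, sub_zero]
    simp only [B0]
    rw [h1, smul_smul, dotProduct_smul, smul_eq_mul, mul_eq_zero]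
    simp [hc, hw0]
  refine ⟨fun i => A0 i + (w ⬝ᵥ A0 i) • O,
    fun j => (1 + w ⬝ᵥ O) • B0 j - (B0 j ⬝ᵥ O) • w, ?_, ?_, ?_, ?_⟩
  · intro i j
    rw [twist_dot, mul_eq_zero, hE0]
    simp [hw0]
  · intro k j
    by_cases hj : C.inc p j
    · obtain ⟨l, rfl⟩ := (hL3 j).mp hj
      rw [hL l (q k), dotProduct_comm]
      constructor
      · intro h
        by_contra hne
        exact ht1 l k (fun hlk => hne (by rw [hlk])) h
      · intro h
        rw [hinj h]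
        exact ht4 l
    · constructor
      · intro h
        rw [hexp] at h
        exact absurd h (hw1 k j hj)
      · intro h
        exact absurd ((hL3 j).mpr ⟨k, h⟩) hj
  · intro i j
    by_cases hj : C.inc p j
    · obtain ⟨l, rfl⟩ := (hL3 j).mp hj
      rw [Ne, hL l (s i), dotProduct_comm]
      exact ht2 l i
    · rw [hexp]
      exact hw2 i j hj
  · intro x i
    have := hw3 x i
    rw [dotProduct_smul, smul_eq_mul] at this
    rw [add_dotProduct, smul_dotProduct, smul_eq_mul]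
    intro h
    exact this (by linarith)

end

end Pool.Agent.Y845.CP
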