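import Mathlib
import Pool.Agent.Y845.CP.Glue

set_option autoImplicit false

namespace Pool.Agent.Y845.CP

open Pool.Agent.Results.MP_8aa8ea_co.NotSelfPolar

/-- vertices of the new configuration: three vertices `T`, three feet `F`, the points `X x` of `C`
other than `p`, and the lines `L j` of `C`. -/
abbrev Vt {m : ℕ} (p : Fin m) := Fin 3 ⊕ Fin 3 ⊕ {x : Fin m // x ≠ p} ⊕ Fin m

/-- The symmetric incidence relation of the new configuration. -/
def adj {m : ℕ} (C : Config m 3) (p : Fin m) (L3 : Fin 3 → Fin m) : Vt p → Vt p → Prop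
  | Sum.inl a, Sum.inl b => a ≠ b
  | Sum.inl a, Sum.inr (Sum.inl b) => a = b
  | Sum.inr (Sum.inl a), Sum.inl b => a = b
  | Sum.inr (Sum.inl a), Sum.inr (Sum.inl b) => a = b
  | Sum.inr (Sum.inl a), Sum.inr (Sum.inr (Sum.inr j)) => L3 a = j
  | Sum.inr (Sum.inr (Sum.inr j)), Sum.inr (Sum.inl a) => L3 a = j
  | Sum.inr (Sum.inr (Sum.inl x)), Sum.inr (Sum.inr (Sum.inr j)) => C.inc x.1 j
  | Sum.inr (Sum.inr (Sum.inr j)), Sum.inr (Sum.inr (Sum.inl x)) => C.inc x.1 j
  | _, _ => False

variable {m : ℕ} {C : Config m 3} {p : Fin m} {L3 : Fin 3 → Fin m}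

theorem adj_symm (v w : Vt p) : adj C p L3 v w ↔ adj C p L3 w v := by
  rcases v with a | a | x | j <;> rcases w with b | b | y | k <;> simp [adj] <;>
    first | exact ne_comm | exact eq_comm

theorem card_Vt : Fintype.card (Vt p) = 2 * m + 5 := by
  have : 0 < m := p.pos
  simp [Fintype.card_subtype_compl]
  omega

theorem deg (hinj : Function.Injective L3) (hL3 : ∀ j, C.inc p j ↔ ∃ k, L3 k = j) (v : Vt p) :
    {w | adj C p L3 v w}.ncard = 3 := by
  classical
  rcases v with a | a | x | j
  · rw [Set.ncard_eq_three]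
    obtain ⟨b, c, hab, hac, hbc, hall⟩ : ∃ b c : Fin 3, a ≠ b ∧ a ≠ c ∧ b ≠ c ∧
        ∀ d, a ≠ d ↔ (d = b ∨ d = c) := by
      revert a; decide
    refine ⟨Sum.inl b, Sum.inl c, Sum.inr (Sum.inl a), by simpa using hbc, by simp, by simp, ?_⟩
    ext w
    rcases w with d | d | y | k
    · simp [adj, hall]
    · simp [adj, eq_comm]
    · simp [adj]
    · simp [adj]
  · rw [Set.ncard_eq_three]
    refine ⟨Sum.inl a, Sum.inr (Sum.inl a), Sum.inr (Sum.inr (Sum.inr (L3 a))), by simp, by simp,
      by simp, ?_⟩
    ext w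
    rcases w with d | d | y | k
    · simp [adj, eq_comm]
    · simp [adj, eq_comm]
    · simp [adj]
    · simp [adj, eq_comm]
  · have h : {w | adj C p L3 (Sum.inr (Sum.inr (Sum.inl x))) w} =
        (fun j : Fin m => (Sum.inr (Sum.inr (Sum.inr j)) : Vt p)) '' {j | C.inc x.1 j} := by
      ext w
      rcases w with d | d | y | k <;> simp [adj]
    rw [h, Set.ncard_image_of_injective _ (fun a b hab => by simpa using hab)]
    exact C.lines_through _
  · -- the map sending the points of the line `j` to the neighbours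
    let kk : Fin 3 := if h : ∃ k, L3 k = j then h.choose else 0
    have hkk : C.inc p j → L3 kk = j := by
      intro h
      have h' := (hL3 j).mp h
      simp only [kk, dif_pos h']
      exact h'.choose_spec
    let φ : Fin m → Vt p := fun x =>
      if h : x = p then Sum.inr (Sum.inl kk) else Sum.inr (Sum.inr (Sum.inl ⟨x, h⟩))
    have hφ : Function.Injective φ := by
      intro x y hxy
      simp only [φ] at hxy
      split_ifs at hxy with h1 h2 h2
      · rw [h1, h2]
      · simp at hxy
      · simp at hxy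
      · simpa using hxy
    have h : {w | adj C p L3 (Sum.inr (Sum.inr (Sum.inr j))) w} = φ '' {x | C.inc x j} := by
      ext w
      rcases w with d | d | y | k
      · simp only [adj, Set.mem_ofPred_eq, Set.mem_image, false_iff, not_exists, not_and]
        intro x _
        simp only [φ]
        split_ifs <;> simp
      · simp only [adj, Set.mem_ofPred_eq, Set.mem_image]
        constructor
        · intro h
          have hp : C.inc p j := (hL3 j).mpr ⟨d, h⟩
          refine ⟨p, hp, ?_⟩
          simp only [φ, dif_pos]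
          rw [hinj ((hkk hp).trans h.symm)]
        · rintro ⟨x, hx, hxe⟩
          simp only [φ] at hxe
          split_ifs at hxe with h1
          · have : kk = d := by simpa using hxe
            rw [← this]
            exact hkk (h1 ▸ hx)
          · simp at hxe
      · simp only [adj, Set.mem_ofPred_eq, Set.mem_image]
        constructor
        · intro h
          refine ⟨y.1, h, ?_⟩
          simp only [φ, dif_neg y.2]
        · rintro ⟨x, hx, hxe⟩
          simp only [φ] at hxe
          split_ifs at hxe with h1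
          · simp at hxe
          · have : x = y.1 := by
              have := hxe
              simp only [Sum.inr.injEq, Sum.inl.injEq] at this
              rw [← this]
            rw [← this]
            exact hx
      · simp only [adj, Set.mem_ofPred_eq, Set.mem_image, false_iff, not_exists, not_and]
        intro x _
        simp only [φ]
        split_ifs <;> simp
    rw [h, Set.ncard_image_of_injective _ hφ]
    exact C.points_on j

theorem uniq (hinj : Function.Injective L3) (hL3 : ∀ j, C.inc p j ↔ ∃ k, L3 k = j)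
    (v v' w w' : Vt p) (hne : v ≠ v') (h1 : adj C p L3 v w) (h2 : adj C p L3 v' w)
    (h3 : adj C p L3 v w') (h4 : adj C p L3 v' w') : w = w' := by
  rcases v with a | a | x | j <;> rcases v' with b | b | y | k <;>
    rcases w with c | c | z | l <;> simp only [adj] at h1 h2 <;>
    rcases w' with d | d | u | e <;> simp only [adj] at h3 h4
  all_goals first
    | (simp only [ne_eq, Sum.inl.injEq, Sum.inr.injEq, reduceCtorEq, not_false_eq_true] at hne ⊢; omega)
    | (rw [← h1, ← h3])
    | (rw [← h2, ← h4])
    | (rw [C.unique_line _ _ _ _ (fun h => hne (by rw [Subtype.ext h])) h1 h2 h3 h4])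
    | skip
  by_contra hc
  have hzu : z.1 ≠ u.1 := fun h => hc (by rw [Subtype.ext h])
  exact hne (by rw [C.unique_line _ _ _ _ hzu h1 h3 h2 h4])

/-- enumeration of the vertices -/
noncomputable def enum (p : Fin m) : Vt p ≃ Fin (2 * m + 5) := Fintype.equivFinOfCardEq card_Vt

/-- The new configuration: a symmetric `(2m+5)_3` configuration. -/
noncomputable def newC (C : Config m 3) (p : Fin m) (L3 : Fin 3 → Fin m)
    (hinj : Function.Injective L3) (hL3 : ∀ j, C.inc p j ↔ ∃ k, L3 k = j) : Config (2 * m + 5) 3 where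
  inc i j := adj C p L3 ((enum p).symm i) ((enum p).symm j)
  lines_through := by
    intro i
    rw [← deg hinj hL3 ((enum p).symm i)]
    have : {j | adj C p L3 ((enum p).symm i) ((enum p).symm j)} =
        (enum p) '' {w | adj C p L3 ((enum p).symm i) w} := by
      ext j
      simp only [Set.mem_ofPred_eq, Set.mem_image]
      constructor
      · intro h
        exact ⟨_, h, by simp⟩
      · rintro ⟨w, hw, rfl⟩
        simpa using hw
    rw [this, Set.ncard_image_of_injective _ (enum p).injective]
  points_on := by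
    intro j
    rw [← deg hinj hL3 ((enum p).symm j)]
    have : {i | adj C p L3 ((enum p).symm i) ((enum p).symm j)} =
        (enum p) '' {w | adj C p L3 ((enum p).symm j) w} := by
      ext i
      simp only [Set.mem_ofPred_eq, Set.mem_image]
      constructor
      · intro h
        exact ⟨_, (adj_symm _ _).mp h, by simp⟩
      · rintro ⟨w, hw, rfl⟩
        simpa using (adj_symm _ _).mp hw
    rw [this, Set.ncard_image_of_injective _ (enum p).injective]
  unique_line := by
    intro i i' j j' hne h1 h2 h3 h4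
    exact (enum p).symm.injective
      (uniq hinj hL3 _ _ _ _ ((enum p).symm.injective.ne hne) h1 h2 h3 h4)

/-- rank 2 for symmetric configurations -/
theorem rank_two {n q : ℕ} (D : Config n q) (hn : 0 < n) (hs : ∀ i j, D.inc i j ↔ D.inc j i) :
    rank D = 2 := by
  have hsd : IsSelfduality D (Equiv.sumComm _ _) := by
    refine ⟨fun i => ⟨i, rfl⟩, fun j => ⟨j, rfl⟩, ?_⟩
    rintro (i | i) (j | j)
    · exact Iff.rfl
    · exact hs _ _
    · exact hs _ _
    · exact Iff.rfl
  apply IsLeast.csInf_eq
  constructor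
  · refine ⟨Equiv.sumComm _ _, hsd, ?_⟩
    apply orderOf_eq_prime
    · ext x
      rcases x with i | i <;> rfl
    · intro h
      have h1 : (Equiv.sumComm (Fin n) (Fin n)) (Sum.inl ⟨0, hn⟩) =
        (1 : Equiv.Perm (Fin n ⊕ Fin n)) (Sum.inl ⟨0, hn⟩) := by rw [← h]
      simp at h1
  · rintro k ⟨δ, hδ, rfl⟩
    have h0 : 0 < orderOf δ := orderOf_pos δ
    have h1 : orderOf δ ≠ 1 := by
      intro h
      rw [orderOf_eq_one_iff] at h
      obtain ⟨j, hj⟩ := hδ.1 ⟨0, hn⟩
      rw [h] at hj
      simp at hj
    omega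

/-! ### Parity of the number of cevian triangles -/

/-- abstract counting lemma -/
theorem two_mod_four {X : Type*} [Fintype X] (τ ω : X → X) (hτ : ∀ h, τ (τ h) = h)
    (hω : ∀ h, ω (ω h) = h) (hc : ∀ h, τ (ω h) = ω (τ h)) (hf : ∀ h, τ h ≠ h)
    (hg : ∀ h, ω h ≠ τ h) (h6 : Nat.card {h // ω h = h} = 6) : ¬ 4 ∣ Fintype.card X := by
  classical
  let Z := {h : X // ω h ≠ h}
  let e : X ≃ Fin (Fintype.card X) := Fintype.equivFin X
  let τ' : Z → Z := fun h => ⟨τ h.1, fun h0 => h.2 (by
    rw [← hc] at h0
    have := congrArg τ h0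
    rwa [hτ, hτ] at this)⟩
  let ω' : Z → Z := fun h => ⟨ω h.1, fun h0 => h.2 (by rw [hω] at h0; exact h0.symm)⟩
  let s : Z → Prop := fun h => min (e h.1) (e (τ h.1)) < min (e (ω h.1)) (e (τ (ω h.1)))
  have hZ : 4 ∣ Fintype.card Z := by
    refine four_dvd τ' (fun h => Subtype.ext (hτ h.1)) (fun h h0 => hf h.1 (congrArg Subtype.val h0))
      ω' ?_ s ?_ ?_
    · intro a b hab
      have h0 := congrArg Subtype.val hab
      have h1 := congrArg ω h0
      apply Subtype.ext
      change ω (ω a.1) = ω (ω b.1) at h1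
      rwa [hω, hω] at h1
    · intro h
      simp only [s, τ', ← hc, hτ]
      rw [min_comm, min_comm (e (τ (ω h.1)))]
    · intro h
      simp only [s, ω', hω]
      have hne : min (e h.1) (e (τ h.1)) ≠ min (e (ω h.1)) (e (τ (ω h.1))) := by
        have n1 : e h.1 ≠ e (ω h.1) := fun h0 => h.2 (e.injective h0).symm
        have n2 : e h.1 ≠ e (τ (ω h.1)) := fun h0 => by
          have := congrArg τ (e.injective h0)
          rw [hτ] at this
          exact hg h.1 this.symm
        have n3 : e (τ h.1) ≠ e (ω h.1) := fun h0 => hg h.1 (e.injective h0).symm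
        have n4 : e (τ h.1) ≠ e (τ (ω h.1)) := fun h0 => by
          have := congrArg τ (e.injective h0)
          rw [hτ, hτ] at this
          exact h.2 this.symm
        rcases min_choice (e h.1) (e (τ h.1)) with a | a <;>
          rcases min_choice (e (ω h.1)) (e (τ (ω h.1))) with b | b <;> rw [a, b] <;> assumption
      constructor
      · intro h1
        exact not_lt.mpr h1.le
      · intro h1
        exact lt_of_le_of_ne (not_lt.mp h1) hne.symm
  have h7 : Fintype.card {h // ω h = h} = 6 := by rw [← Nat.card_eq_fintype_card, h6]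
  have h8 : Fintype.card {h // ¬ ω h = h} = Fintype.card X - Fintype.card {h // ω h = h} :=
    Fintype.card_subtype_compl _
  have h9 : Fintype.card {h // ω h = h} ≤ Fintype.card X := Fintype.card_subtype_le _
  have h10 : Fintype.card Z = Fintype.card {h // ¬ ω h = h} := rfl
  omega

/-- labelled cevian triangle with equal point and line part: permutation of the three labels -/
def base (p : Fin m) (σ : Equiv.Perm (Fin 3)) : K → Vt p
  | Sum.inl a => Sum.inl (σ a)
  | Sum.inr a => Sum.inr (Sum.inl (σ a))

theorem base_mem (σ : Equiv.Perm (Fin 3)) : (base p σ, base p σ) ∈ Cev (adj C p L3) := by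
  have hi : Function.Injective (base p σ) := by
    intro a b hab
    rcases a with a | a <;> rcases b with b | b <;> simp [base] at hab <;> rw [hab]
  refine ⟨hi, hi, ?_⟩
  intro a b hab
  rcases a with a | a <;> rcases b with b | b <;> simp only [kinc] at hab <;>
    simp [base, adj, hab]

theorem loop {x : Vt p} (h : adj C p L3 x x) : ∃ a, x = Sum.inr (Sum.inl a) := by
  rcases x with a | a | y | j
  · simp [adj] at h
  · exact ⟨a, rfl⟩
  · simp [adj] at h
  · simp [adj] at h

theorem fixed_eq_base {x : K → Vt p} (h : (x, x) ∈ Cev (adj C p L3)) : ∃ σ, x = base p σ := by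
  obtain ⟨i1, -, i3⟩ := h
  simp only at i1 i3
  have hF : ∀ a, ∃ b, x (Sum.inr a) = Sum.inr (Sum.inl b) := fun a =>
    loop (i3 (Sum.inr a) (Sum.inr a) rfl)
  choose f hf using hF
  have hfi : Function.Injective f := by
    intro a b hab
    have : x (Sum.inr a) = x (Sum.inr b) := by rw [hf, hf, hab]
    simpa using i1 this
  have hT : ∀ a, x (Sum.inl a) = Sum.inl (f a) ∨ ∃ j, x (Sum.inl a) = Sum.inr (Sum.inr (Sum.inr j)) := by
    intro a
    have h1 := i3 (Sum.inl a) (Sum.inr a) rfl
    rw [hf a] at h1
    rcases hxa : x (Sum.inl a) with b | b | y | j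
    · rw [hxa] at h1
      left
      simp only [adj] at h1
      rw [h1]
    · rw [hxa] at h1
      simp only [adj] at h1
      exfalso
      have : x (Sum.inl a) = x (Sum.inr a) := by rw [hxa, hf, h1]
      have := i1 this
      simp at this
    · rw [hxa] at h1
      simp [adj] at h1
    · right
      exact ⟨j, rfl⟩
  have hT' : ∀ a, x (Sum.inl a) = Sum.inl (f a) := by
    intro a
    rcases hT a with h | ⟨j, hj⟩
    · exact h
    · exfalso
      obtain ⟨b, hb⟩ : ∃ b : Fin 3, a ≠ b := by
        clear hj
        revert a; decide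
      have h1 := i3 (Sum.inl a) (Sum.inl b) hb
      rcases hT b with h | ⟨k, hk⟩
      · rw [hj, h] at h1
        simp [adj] at h1
      · rw [hj, hk] at h1
        simp [adj] at h1
  refine ⟨Equiv.ofBijective f (Finite.injective_iff_bijective.mp hfi), ?_⟩
  funext a
  rcases a with a | a
  · rw [hT']; rfl
  · rw [hf]; rfl

theorem base_inj : Function.Injective (base p) := by
  intro σ τ h
  ext a
  have := congrFun h (Sum.inl a)
  simp only [base, Sum.inl.injEq] at this
  rw [this]

theorem no_type2 (hinj : Function.Injective L3) {x y : K → Vt p} (h : (x, y) ∈ Cev (adj C p L3)) :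
    y ≠ x ∘ tK := by
  rintro rfl
  obtain ⟨i1, -, i3⟩ := h
  simp only at i1 i3
  have e1 : tK (Sum.inl 1) = Sum.inl 2 := by decide
  have e2 : tK (Sum.inl 2) = Sum.inl 1 := by decide
  have h1 := i3 (Sum.inl 1) (Sum.inl 2) (by simp [kinc])
  have h2 := i3 (Sum.inl 2) (Sum.inl 1) (by simp [kinc])
  have h3 := i3 (Sum.inl 0) (Sum.inl 1) (by simp [kinc])
  have h4 := i3 (Sum.inl 0) (Sum.inl 2) (by simp [kinc])
  simp only [Function.comp, e1, e2] at h1 h2 h3 h4
  obtain ⟨a, ha⟩ := loop h1
  obtain ⟨b, hb⟩ := loop h2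
  rw [hb] at h3
  rw [ha] at h4
  have hab : a ≠ b := by
    rintro rfl
    have := i1 (ha.trans hb.symm)
    simp at this
  rcases h0 : x (Sum.inl 0) with c | c | z | j <;> rw [h0] at h3 h4 <;> simp only [adj] at h3 h4
  · exact hab (h4.symm.trans h3)
  · exact hab (h4.symm.trans h3)
  · exact hab (hinj (h4.trans h3.symm))

/-- The number of labelled cevian triangles of the new configuration is not divisible by 4. -/
theorem not_four_dvd_adj (hinj : Function.Injective L3) : ¬ 4 ∣ (Cev (adj C p L3)).ncard := by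
  classical
  have hfin : Fintype (Cev (adj C p L3)) := Fintype.ofFinite _
  rw [← Nat.card_coe_set_eq, Nat.card_eq_fintype_card]
  let ω : Cev (adj C p L3) → Cev (adj C p L3) := fun h => ⟨(h.1.2, h.1.1), by
    obtain ⟨i1, i2, i3⟩ := h.2
    refine ⟨i2, i1, ?_⟩
    intro a b hab
    rw [adj_symm]
    exact i3 b a ((kinc_symm _ _).mp hab)⟩
  let τ : Cev (adj C p L3) → Cev (adj C p L3) := fun h =>
    ⟨(h.1.1 ∘ tK, h.1.2 ∘ tK), by
      obtain ⟨i1, i2, i3⟩ := h.2
      exact ⟨i1.comp tK_inj, i2.comp tK_inj, fun a b hab => i3 _ _ ((tK_kinc a b).mpr hab)⟩⟩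
  refine two_mod_four τ ω ?_ (fun h => rfl) (fun h => rfl) ?_ ?_ ?_
  · intro h
    apply Subtype.ext
    apply Prod.ext <;> funext a <;> simp [τ, tK_tK]
  · intro h h0
    have h1 := congrArg (fun z : Cev (adj C p L3) => z.1.1 (Sum.inl 1)) h0
    simp only [τ, Function.comp] at h1
    have h2 := h.2.1 h1
    exact absurd h2 (by decide)
  · intro h h0
    have h1 := congrArg (fun z : Cev (adj C p L3) => z.1.1) h0
    simp only [τ, ω] at h1
    exact no_type2 hinj h.2 h1
  · have : Nat.card (Equiv.Perm (Fin 3)) = 6 := by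
      rw [Nat.card_eq_fintype_card, Fintype.card_perm]; rfl
    rw [← this]
    symm
    refine Nat.card_congr (Equiv.ofBijective (fun σ => ⟨⟨(base p σ, base p σ), base_mem σ⟩, rfl⟩)
      ⟨?_, ?_⟩)
    · intro σ τ h
      apply base_inj
      have := congrArg (fun z : {h : Cev (adj C p L3) // ω h = h} => z.1.1.1) h
      exact this
    · rintro ⟨⟨⟨x, y⟩, hxy⟩, h⟩
      have h1 : y = x := congrArg (fun z : Cev (adj C p L3) => z.1.1) h
      subst h1
      obtain ⟨σ, rfl⟩ := fixed_eq_base hxy
      exact ⟨σ, rfl⟩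

theorem not_four_dvd (hinj : Function.Injective L3) (hL3 : ∀ j, C.inc p j ↔ ∃ k, L3 k = j) :
    ¬ 4 ∣ (Cev (newC C p L3 hinj hL3).inc).ncard := by
  have h : Cev (newC C p L3 hinj hL3).inc =
      (fun h : (K → Vt p) × (K → Vt p) => ((enum p) ∘ h.1, (enum p) ∘ h.2)) '' Cev (adj C p L3) := by
    ext ⟨x, y⟩
    simp only [Set.mem_image, Prod.mk.injEq, Prod.exists]
    constructor
    · rintro ⟨i1, i2, i3⟩
      refine ⟨(enum p).symm ∘ x, (enum p).symm ∘ y, ⟨(enum p).symm.injective.comp i1,
        (enum p).symm.injective.comp i2, i3⟩, ?_, ?_⟩ <;> funext a <;> simp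
    · rintro ⟨u, v, ⟨i1, i2, i3⟩, rfl, rfl⟩
      refine ⟨(enum p).injective.comp i1, (enum p).injective.comp i2, ?_⟩
      intro a b hab
      simpa [newC] using i3 a b hab
  rw [h, Set.ncard_image_of_injective]
  · exact not_four_dvd_adj hinj
  · rintro ⟨a, b⟩ ⟨c, d⟩ h
    simp only [Prod.mk.injEq] at h
    rw [(enum p).injective.comp_left h.1, (enum p).injective.comp_left h.2]

end Pool.Agent.Y845.CP
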