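import Mathlib
import Pool.Agent.Y845.CP.Str

set_option autoImplicit false

namespace Pool.Agent.Y845.CP

open Pool.Agent.Results.MP_8aa8ea_co.NotSelfPolar

/-- The configuration is connected: any two of its points and lines are joined by a chain of
incidences. -/
def Connected {n q : ℕ} (C : Config n q) : Prop :=
  ∀ x y : Fin n ⊕ Fin n, Relation.ReflTransGen (Incident C) x y

variable {m : ℕ} {C : Config m 3} {p : Fin m} {L3 : Fin 3 → Fin m}

instance incident_symm {n q : ℕ} (C : Config n q) : Std.Symm (Incident C) :=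
  ⟨by rintro (i | i) (j | j) h <;> exact h⟩

/-- joined to the point `T 0` -/
def Jn (C : Config m 3) (p : Fin m) (L3 : Fin 3 → Fin m) (hinj : Function.Injective L3)
    (hL3 : ∀ j, C.inc p j ↔ ∃ k, L3 k = j) (x : Vt p ⊕ Vt p) : Prop :=
  Relation.ReflTransGen (Incident (newC C p L3 hinj hL3)) (Sum.inl (enum p (Sum.inl 0)))
    (Sum.map (enum p) (enum p) x)

theorem Jn.step1 {hinj : Function.Injective L3} {hL3 : ∀ j, C.inc p j ↔ ∃ k, L3 k = j}
    {v w : Vt p} (h : Jn C p L3 hinj hL3 (Sum.inl v)) (ha : adj C p L3 v w) :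
    Jn C p L3 hinj hL3 (Sum.inr w) := by
  refine Relation.ReflTransGen.tail h ?_
  simp only [Sum.map_inl, Sum.map_inr, Incident, newC, Equiv.symm_apply_apply]
  exact ha

theorem Jn.step2 {hinj : Function.Injective L3} {hL3 : ∀ j, C.inc p j ↔ ∃ k, L3 k = j}
    {v w : Vt p} (h : Jn C p L3 hinj hL3 (Sum.inr v)) (ha : adj C p L3 v w) :
    Jn C p L3 hinj hL3 (Sum.inl w) := by
  refine Relation.ReflTransGen.tail h ?_
  simp only [Sum.map_inl, Sum.map_inr, Incident, newC, Equiv.symm_apply_apply]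
  exact (adj_symm _ _).mp ha

theorem new_connected (hinj : Function.Injective L3) (hL3 : ∀ j, C.inc p j ↔ ∃ k, L3 k = j)
    (hC : Connected C) : Connected (newC C p L3 hinj hL3) := by
  let J := Jn C p L3 hinj hL3
  have t0 : J (Sum.inl (Sum.inl 0)) := Relation.ReflTransGen.refl
  have l1 : J (Sum.inr (Sum.inl 1)) := Jn.step1 t0 (show (0 : Fin 3) ≠ 1 by decide)
  have t2 : J (Sum.inl (Sum.inl 2)) := Jn.step2 l1 (show (1 : Fin 3) ≠ 2 by decide)
  have l0 : J (Sum.inr (Sum.inl 0)) := Jn.step1 t2 (show (2 : Fin 3) ≠ 0 by decide)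
  have t1 : J (Sum.inl (Sum.inl 1)) := Jn.step2 l0 (show (0 : Fin 3) ≠ 1 by decide)
  have l2 : J (Sum.inr (Sum.inl 2)) := Jn.step1 t1 (show (1 : Fin 3) ≠ 2 by decide)
  have hT : ∀ a, J (Sum.inl (Sum.inl a)) := by
    intro a; fin_cases a
    · exact t0
    · exact t1
    · exact t2
  have hT' : ∀ a, J (Sum.inr (Sum.inl a)) := by
    intro a; fin_cases a
    · exact l0
    · exact l1
    · exact l2
  have hF : ∀ a, J (Sum.inl (Sum.inr (Sum.inl a))) := fun a => Jn.step2 (hT' a) (show a = a from rfl)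
  have hF' : ∀ a, J (Sum.inr (Sum.inr (Sum.inl a))) := fun a => Jn.step1 (hT a) (show a = a from rfl)
  have g1 : ∀ z : Fin m ⊕ Fin m, (∀ x, z = Sum.inl x → ∀ h : x ≠ p,
      J (Sum.inl (Sum.inr (Sum.inr (Sum.inl ⟨x, h⟩))))) ∧
      (∀ j, z = Sum.inr j → J (Sum.inr (Sum.inr (Sum.inr (Sum.inr j))))) := by
    intro z
    induction hC (Sum.inl p) z with
    | refl => exact ⟨fun x hx h => absurd (Sum.inl_injective hx).symm h, fun j hj => by simp at hj⟩
    | @tail y z _ hyz ih =>
      rcases y with y | y <;> rcases z with z | z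
      · exact absurd hyz id
      · refine ⟨fun x hx => by simp at hx, ?_⟩
        intro j hj
        obtain rfl := Sum.inr_injective hj
        by_cases hy : y = p
        · obtain ⟨k, hk⟩ := (hL3 z).mp (hy ▸ hyz)
          exact Jn.step1 (hF k) hk
        · exact Jn.step1 (ih.1 y rfl hy) hyz
      · refine ⟨?_, fun j hj => by simp at hj⟩
        intro x hx h
        obtain rfl := Sum.inl_injective hx
        exact Jn.step2 (ih.2 y rfl) hyz
      · exact absurd hyz id
  have g2 : ∀ z : Fin m ⊕ Fin m, (∀ x, z = Sum.inl x → ∀ h : x ≠ p,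
      J (Sum.inr (Sum.inr (Sum.inr (Sum.inl ⟨x, h⟩))))) ∧
      (∀ j, z = Sum.inr j → J (Sum.inl (Sum.inr (Sum.inr (Sum.inr j))))) := by
    intro z
    induction hC (Sum.inl p) z with
    | refl => exact ⟨fun x hx h => absurd (Sum.inl_injective hx).symm h, fun j hj => by simp at hj⟩
    | @tail y z _ hyz ih =>
      rcases y with y | y <;> rcases z with z | z
      · exact absurd hyz id
      · refine ⟨fun x hx => by simp at hx, ?_⟩
        intro j hj
        obtain rfl := Sum.inr_injective hj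
        by_cases hy : y = p
        · obtain ⟨k, hk⟩ := (hL3 z).mp (hy ▸ hyz)
          exact Jn.step2 (hF' k) hk
        · exact Jn.step2 (ih.1 y rfl hy) hyz
      · refine ⟨?_, fun j hj => by simp at hj⟩
        intro x hx h
        obtain rfl := Sum.inl_injective hx
        exact Jn.step1 (ih.2 y rfl) hyz
      · exact absurd hyz id
  have hall : ∀ v : Vt p ⊕ Vt p, J v := by
    rintro ((a | a | x | j) | (a | a | x | j))
    · exact hT a
    · exact hF a
    · exact (g1 (Sum.inl x.1)).1 x.1 rfl x.2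
    · exact (g2 (Sum.inr j)).2 j rfl
    · exact hT' a
    · exact hF' a
    · exact (g2 (Sum.inl x.1)).1 x.1 rfl x.2
    · exact (g1 (Sum.inr j)).2 j rfl
  have hall' : ∀ y : Fin (2 * m + 5) ⊕ Fin (2 * m + 5),
      Relation.ReflTransGen (Incident (newC C p L3 hinj hL3)) (Sum.inl (enum p (Sum.inl 0))) y := by
    intro y
    have := hall (Sum.map (enum p).symm (enum p).symm y)
    simp only [J, Jn, Sum.map_map] at this
    rcases y with y | y <;> simpa using this
  intro x y
  exact (Std.Symm.symm (r := Relation.ReflTransGen (Incident (newC C p L3 hinj hL3))) _ _ (hall' x)).trans (hall' y)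

end Pool.Agent.Y845.CP
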