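import Mathlib
import Pool.Agent.Y845.CP.Str

set_option autoImplicit false

namespace Pool.Agent.Y845.CP

open Pool.Agent.Results.MP_8aa8ea_co.NotSelfPolar

theorem eq_line {ℓ : AffineSubspace ℝ Plane} (h : Module.finrank ℝ ℓ.direction = 1) {A B : Plane}
    (hA : A ∈ ℓ) (hB : B ∈ ℓ) (hAB : A ≠ B) : ℓ = line[ℝ, A, B] := by
  apply le_antisymm
  · intro x hx
    exact (collinear_of_mem h hA hB hx).mem_affineSpan_of_mem_of_ne (by simp) (by simp) (by simp) hAB
  · rw [affineSpan_le]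
    intro x hx
    simp at hx
    rcases hx with rfl | rfl <;> assumption

/-- homogeneous vectors of a realization -/
theorem vecs {n q : ℕ} {C : Config n q} (R : Realization C) :
    ∃ a b : Fin n → V3, ∀ i j, a i ⬝ᵥ b j = 0 ↔ C.inc i j := by
  have : ∀ j, ∃ b : V3, ∀ x : Plane, hom x ⬝ᵥ b = 0 ↔ x ∈ R.ln j := by
    intro j
    obtain ⟨A, B, hAB, hA, hB⟩ := two_points R j
    refine ⟨![-(B 1 - A 1), B 0 - A 0, (B 1 - A 1) * A 0 - (B 0 - A 0) * A 1], fun x => ?_⟩
    rw [eq_line (R.ln_line j).2 hA hB hAB, mem_line_iff hAB]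
    have e2 : (![-(B 1 - A 1), B 0 - A 0, (B 1 - A 1) * A 0 - (B 0 - A 0) * A 1] : V3) 2
      = (B 1 - A 1) * A 0 - (B 0 - A 0) * A 1 := rfl
    simp only [dotProduct, Fin.sum_univ_three, hom_zero, hom_one, hom_two, e2]
    simp only [Matrix.cons_val_zero, Matrix.cons_val_one]
    constructor <;> intro h <;> linarith
  choose b hb using this
  exact ⟨fun i => hom (R.pt i), b, fun i j => by rw [hb, R.inc_iff]⟩

/-- a realization from homogeneous vectors -/
theorem toReal {n : ℕ} (D : Config n 3) {P Λ : Fin n → V3}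
    (hE : ∀ i j, P i ⬝ᵥ Λ j = 0 ↔ D.inc i j) : Nonempty (Realization D) := by
  classical
  obtain ⟨w, hw⟩ := avoid (ι := Unit ⊕ Fin n) (fun _ => 0) (Sum.elim (fun _ => ![0, 0, 1]) P) (by
    rintro (_ | i)
    · intro h
      have := congrFun h 2
      simp at this
    · exact point_ne hE i)
  have hw2 : w 2 ≠ 0 := by
    have := hw (Sum.inl ())
    simpa [dotProduct, Fin.sum_univ_three] using this
  have hwP : ∀ i, w ⬝ᵥ P i ≠ 0 := fun i => by
    have := hw (Sum.inr i)
    simpa using this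
  let pt : Fin n → Plane := fun i => !₂[P i 0 / (w ⬝ᵥ P i), P i 1 / (w ⬝ᵥ P i)]
  let l : Fin n → V3 := fun j =>
    ![Λ j 0 - Λ j 2 * w 0 / w 2, Λ j 1 - Λ j 2 * w 1 / w 2, Λ j 2 / w 2]
  have l0 : ∀ j, l j 0 = Λ j 0 - Λ j 2 * w 0 / w 2 := fun j => rfl
  have l1 : ∀ j, l j 1 = Λ j 1 - Λ j 2 * w 1 / w 2 := fun j => rfl
  have l2 : ∀ j, l j 2 = Λ j 2 / w 2 := fun j => rfl
  have hpt0 : ∀ i, (pt i) 0 = P i 0 / (w ⬝ᵥ P i) := fun i => by simp [pt]
  have hpt1 : ∀ i, (pt i) 1 = P i 1 / (w ⬝ᵥ P i) := fun i => by simp [pt]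
  have hk : ∀ i j, hom (pt i) ⬝ᵥ l j = (P i ⬝ᵥ Λ j) / (w ⬝ᵥ P i) := by
    intro i j
    have h1 := hwP i
    have hs : w ⬝ᵥ P i = w 0 * P i 0 + w 1 * P i 1 + w 2 * P i 2 := by
      simp [dotProduct, Fin.sum_univ_three]
    have e0 := hpt0 i
    have e1 := hpt1 i
    generalize w ⬝ᵥ P i = s at *
    simp only [dotProduct, Fin.sum_univ_three, hom_zero, hom_one, hom_two, l0, l1, l2, e0, e1]
    field_simp
    linear_combination Λ j 2 * hs
  have hinc : ∀ i j, hom (pt i) ⬝ᵥ l j = 0 ↔ D.inc i j := by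
    intro i j
    rw [hk, ← hE i j, div_eq_zero_iff]
    simp [hwP i]
  have hptinj : Function.Injective pt := by
    intro i i' h
    by_contra hne
    obtain ⟨j, j', hjj, h1, h2⟩ := two_through D i
    have h3 : D.inc i' j := (hinc i' j).mp (by rw [← h]; exact (hinc i j).mpr h1)
    have h4 : D.inc i' j' := (hinc i' j').mp (by rw [← h]; exact (hinc i j').mpr h2)
    exact hjj (D.unique_line i i' j j' hne h1 h3 h2 h4)
  have hl : ∀ j, l j 0 ≠ 0 ∨ l j 1 ≠ 0 := by
    intro j
    by_contra hc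
    push Not at hc
    obtain ⟨i, i', -, h1, -⟩ := two_on D j
    have h2 := (hinc i j).mpr h1
    simp only [dotProduct, Fin.sum_univ_three, hom_zero, hom_one, hom_two, hc.1, hc.2] at h2
    have h3 : l j 2 = 0 := by linarith
    rw [l2, div_eq_zero_iff] at h3
    have h4 : Λ j 2 = 0 := h3.resolve_right hw2
    have h5 := hc.1
    have h6 := hc.2
    rw [l0, h4] at h5
    rw [l1, h4] at h6
    apply line_ne hE j
    funext k
    fin_cases k
    · simpa using h5
    · simpa using h6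
    · exact h4
  choose u v huv hu hv using two_on D
  have huv' : ∀ j, pt (u j) ≠ pt (v j) := fun j => hptinj.ne (huv j)
  have hmem : ∀ j x, x ∈ line[ℝ, pt (u j), pt (v j)] ↔ hom x ⬝ᵥ l j = 0 := by
    intro j x
    rw [mem_line_iff (huv' j)]
    have hA := (hinc (u j) j).mpr (hu j)
    have hB := (hinc (v j) j).mpr (hv j)
    have hne : (pt (v j)) 0 - (pt (u j)) 0 ≠ 0 ∨ (pt (v j)) 1 - (pt (u j)) 1 ≠ 0 := by
      by_contra hc
      push Not at hc
      apply huv' j
      ext k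
      fin_cases k
      · simp; linarith [hc.1]
      · simp; linarith [hc.2]
    generalize pt (u j) = A at *
    generalize pt (v j) = B at *
    have hlj := hl j
    generalize l j = y at *
    simp only [dotProduct, Fin.sum_univ_three, hom_zero, hom_one, hom_two, one_mul] at hA hB ⊢
    have e : (B 0 - A 0) * y 0 + (B 1 - A 1) * y 1 = 0 := by linarith
    have e' : x 0 * y 0 + x 1 * y 1 + y 2 = (x 0 - A 0) * y 0 + (x 1 - A 1) * y 1 := by linarith
    rw [e']
    constructor
    · intro h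
      rcases hne with h0 | h1
      · have : ((x 0 - A 0) * y 0 + (x 1 - A 1) * y 1) * (B 0 - A 0) = 0 := by
          linear_combination y 1 * h + (x 0 - A 0) * e
        exact (mul_eq_zero.mp this).resolve_right h0
      · have : ((x 0 - A 0) * y 0 + (x 1 - A 1) * y 1) * (B 1 - A 1) = 0 := by
          linear_combination (-y 0) * h + (x 1 - A 1) * e
        exact (mul_eq_zero.mp this).resolve_right h1
    · intro h
      rcases hlj with h0 | h1
      · have : ((B 0 - A 0) * (x 1 - A 1) - (B 1 - A 1) * (x 0 - A 0)) * y 0 = 0 := by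
          linear_combination (x 1 - A 1) * e - (B 1 - A 1) * h
        linarith [(mul_eq_zero.mp this).resolve_right h0]
      · have : ((B 0 - A 0) * (x 1 - A 1) - (B 1 - A 1) * (x 0 - A 0)) * y 1 = 0 := by
          linear_combination (-(x 0 - A 0)) * e + (B 0 - A 0) * h
        linarith [(mul_eq_zero.mp this).resolve_right h1]
  have hfin : ∀ i j, pt i ∈ line[ℝ, pt (u j), pt (v j)] ↔ D.inc i j := fun i j => by
    rw [hmem, hinc]
  refine ⟨{ pt := pt, ln := fun j => line[ℝ, pt (u j), pt (v j)], pt_inj := hptinj,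
            ln_inj := ?_, ln_line := ?_, inc_iff := hfin }⟩
  · intro j j' h
    have h1 := (hfin (u j) j).mpr (hu j)
    have h2 := (hfin (v j) j).mpr (hv j)
    simp only at h
    rw [h] at h1 h2
    exact D.unique_line _ _ _ _ (huv j) (hu j) (hv j) ((hfin _ _).mp h1) ((hfin _ _).mp h2)
  · intro j
    exact ⟨⟨pt (u j), left_mem_affineSpan_pair ℝ _ _⟩, line_finrank (huv' j)⟩

/-! ### The head -/

def hT (a : Fin 3) : V3 := fun k => if k = a then 1 else 0
def hFp (a : Fin 3) : V3 := fun k => if k = a then 0 else 1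
def hFl (a : Fin 3) : V3 := fun k => if k = a + 1 then 1 else if k = a + 2 then -1 else 0

theorem hTT (a b : Fin 3) : hT a ⬝ᵥ hT b = 0 ↔ a ≠ b := by
  fin_cases a <;> fin_cases b <;> simp [hT, dotProduct, Fin.sum_univ_three]

theorem hTF (a b : Fin 3) : hT a ⬝ᵥ hFl b = 0 ↔ a = b := by
  fin_cases a <;> fin_cases b <;> simp [hT, hFl, dotProduct, Fin.sum_univ_three]

theorem hFT (a b : Fin 3) : hFp a ⬝ᵥ hT b = 0 ↔ a = b := by
  fin_cases a <;> fin_cases b <;> simp [hT, hFp, dotProduct, Fin.sum_univ_three]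

theorem hFF (a b : Fin 3) : hFp a ⬝ᵥ hFl b = 0 ↔ a = b := by
  fin_cases a <;> fin_cases b <;> simp [hFp, hFl, dotProduct, Fin.sum_univ_three]

theorem cross_ne_of {u v z : V3} (h1 : z ⬝ᵥ u = 0) (h2 : z ⬝ᵥ v ≠ 0) (hu : u ≠ 0) :
    crossProduct u v ≠ 0 := by
  intro h
  obtain ⟨s, hs⟩ := cross_zero h hu
  exact h2 (by rw [hs, dotProduct_smul, h1, smul_zero])

theorem hT_ne (a : Fin 3) : hT a ≠ 0 := fun h => by
  have := congrFun h a
  simp [hT] at this

theorem hFp_ne (a : Fin 3) : hFp a ≠ 0 := fun h => by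
  have := congrFun h (a + 1)
  simp [hFp] at this

theorem hFl_ne (a : Fin 3) : hFl a ≠ 0 := fun h => by
  have := congrFun h (a + 1)
  simp [hFl] at this

variable {m : ℕ} {C : Config m 3} {p : Fin m} {L3 : Fin 3 → Fin m}

/-- vectors for the new configuration -/
theorem new_vecs (hinj : Function.Injective L3) (hL3 : ∀ j, C.inc p j ↔ ∃ k, L3 k = j)
    {a b : Fin m → V3} (hE : ∀ i j, a i ⬝ᵥ b j = 0 ↔ C.inc i j) :
    ∃ P Λ : Vt p → V3, ∀ v w, P v ⬝ᵥ Λ w = 0 ↔ adj C p L3 v w := by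
  obtain ⟨A, B, h1, h2, h3, h4⟩ := glue (ι := Fin 3) (κ := Fin 3 ⊕ Fin 3) hE p L3 hinj hL3
    hFp (by
      intro k l hkl
      refine cross_ne_of (z := hFl k) ?_ ?_ (hFp_ne k)
      · rw [dotProduct_comm, hFF]
      · rw [dotProduct_comm, Ne, hFF]; exact fun h => hkl h.symm) hT (by
      intro k i
      by_cases hki : k = i
      · subst hki
        refine cross_ne_of (z := hT k) ?_ ?_ (hFp_ne k)
        · rw [dotProduct_comm, hFT]
        · rw [Ne, hTT]; simp
      · rw [← neg_cross, Ne, neg_eq_zero]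
        obtain ⟨j, hj1, hj2⟩ : ∃ j : Fin 3, j ≠ i ∧ j ≠ k := by
          clear hki; revert i k; decide
        refine cross_ne_of (z := hT j) ?_ ?_ (hT_ne i)
        · rw [hTT]; exact hj1
        · rw [dotProduct_comm, Ne, hFT]; exact fun h => hj2 h.symm)
    (Sum.elim hT hFl) (by
      rintro (i | i)
      · exact hT_ne i
      · exact hFl_ne i)
  obtain ⟨A', B', g1, g2, g3, g4⟩ := glue (ι := Fin 3 ⊕ Fin m) (κ := Fin 3 ⊕ Fin 3 ⊕ Fin m) hE p L3
    hinj hL3 hFl (by
      intro k l hkl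
      refine cross_ne_of (z := hFp k) ?_ ?_ (hFl_ne k)
      · rw [hFF]
      · rw [Ne, hFF]; exact hkl) (Sum.elim hT B) (by
      rintro k (i | j)
      · by_cases hki : k = i
        · subst hki
          refine cross_ne_of (z := hT k) ?_ ?_ (hFl_ne k)
          · rw [hTF]
          · rw [Sum.elim_inl, Ne, hTT]; simp
        · rw [← neg_cross, Ne, neg_eq_zero]
          obtain ⟨j, hj1, hj2⟩ : ∃ j : Fin 3, j ≠ i ∧ j ≠ k := by
            clear hki; revert i k; decide
          refine cross_ne_of (z := hT j) ?_ ?_ (hT_ne i)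
          · exact (hTT _ _).mpr hj1
          · rw [Ne, hTF]; exact hj2
      · refine cross_ne_of (z := hT k) ?_ ?_ (hFl_ne k)
        · rw [hTF]
        · exact h3 k j)
    (Sum.elim hT (Sum.elim hFp A)) (by
      rintro (i | i | i)
      · exact hT_ne i
      · exact hFp_ne i
      · exact point_ne h1 i)
  refine ⟨Sum.elim hT (Sum.elim hFp (Sum.elim (fun x => A x.1) B')),
    Sum.elim hT (Sum.elim hFl (Sum.elim (fun x => A' x.1) B)), ?_⟩
  rintro (c | c | x | j) (d | d | y | k)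
  · exact hTT c d
  · exact hTF c d
  · simp only [Sum.elim_inl, Sum.elim_inr, adj, iff_false]
    rw [dotProduct_comm]
    exact g4 y.1 (Sum.inl c)
  · simp only [Sum.elim_inl, Sum.elim_inr, adj, iff_false]
    exact h3 c k
  · exact hFT c d
  · exact hFF c d
  · simp only [Sum.elim_inl, Sum.elim_inr, adj, iff_false]
    rw [dotProduct_comm]
    exact g4 y.1 (Sum.inr (Sum.inl c))
  · exact h2 c k
  · simp only [Sum.elim_inl, Sum.elim_inr, adj, iff_false]
    exact h4 x.1 (Sum.inl d)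
  · simp only [Sum.elim_inl, Sum.elim_inr, adj, iff_false]
    exact h4 x.1 (Sum.inr d)
  · simp only [Sum.elim_inl, Sum.elim_inr, adj, iff_false]
    rw [dotProduct_comm]
    exact g4 y.1 (Sum.inr (Sum.inr x.1))
  · exact h1 x.1 k
  · simp only [Sum.elim_inl, Sum.elim_inr, adj, iff_false]
    rw [dotProduct_comm]
    exact g3 (Sum.inl d) j
  · simp only [Sum.elim_inl, Sum.elim_inr, adj]
    rw [dotProduct_comm]
    exact g2 d j
  · simp only [Sum.elim_inl, Sum.elim_inr, adj]
    rw [dotProduct_comm]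
    exact g1 y.1 j
  · simp only [Sum.elim_inl, Sum.elim_inr, adj, iff_false]
    rw [dotProduct_comm]
    exact g3 (Sum.inr k) j

theorem new_real (hinj : Function.Injective L3) (hL3 : ∀ j, C.inc p j ↔ ∃ k, L3 k = j)
    (R : Nonempty (Realization C)) : Nonempty (Realization (newC C p L3 hinj hL3)) := by
  obtain ⟨R⟩ := R
  obtain ⟨a, b, hE⟩ := vecs R
  obtain ⟨P, Λ, h⟩ := new_vecs hinj hL3 hE
  exact toReal (newC C p L3 hinj hL3) (P := fun i => P ((enum p).symm i))
    (Λ := fun j => Λ ((enum p).symm j)) (fun i j => h _ _)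

end Pool.Agent.Y845.CP
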